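import Pool.Agent.Lib_MP_8720f8_lc.Defs

/-!
# Chains of rewriting steps (for MP_8720f8_lc)
-/

namespace Pool.Agent.Kuz

open Relation
open scoped commutatorElement

section
variable {Q : Type} [Group Q] {L : Type}

/-- iterated commutator in a group -/
def cg (x : L → Q) (g : Q) (ls : List L) : Q := ls.foldl (fun g l => ⁅g, x l⁆) g

theorem cg_append (x : L → Q) (g : Q) (l1 l2 : List L) :
    cg x g (l1 ++ l2) = cg x (cg x g l1) l2 := List.foldl_append

theorem ev_foldl_comm (x : Option L → Q) (ls : List L) (w : Wd (Option L)) :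
    ev x (ls.foldl (fun w l => wcomm w (wvar (some l))) w) = cg (fun l => x (some l)) (ev x w) ls := by
  induction ls generalizing w with
  | nil => rfl
  | cons l ls ih => rw [List.foldl_cons, ih]; simp [cg]

theorem ev_cw (x : Option L → Q) (ls : List L) :
    ev x (cw ls) = cg (fun l => x (some l)) (x none) ls := by
  rw [cw, ev_foldl_comm, ev_wvar]

variable {M : Subgroup Q}

theorem comm_comm (hM : ∀ a ∈ M, ∀ b ∈ M, a * b = b * a) {a b g : Q} (hab : a * b = b * a)
    (hg : g ∈ M) (ha : ∀ m ∈ M, a * m * a⁻¹ ∈ M) (hb : ∀ m ∈ M, b * m * b⁻¹ ∈ M) :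
    ⁅⁅g, a⁆, b⁆ = ⁅⁅g, b⁆, a⁆ := by
  set u := a * g⁻¹ * a⁻¹ with hu
  set v := b * g⁻¹ * b⁻¹ with hv
  set t := b * a * g * a⁻¹ * b⁻¹ with ht
  have hum : u ∈ M := ha _ (inv_mem hg)
  have hvm : v ∈ M := hb _ (inv_mem hg)
  have htm : t ∈ M := by
    have := hb _ (ha _ hg)
    rw [ht]
    convert this using 1
    group
  have ht' : t = a * b * g * b⁻¹ * a⁻¹ := by
    have h1 : a⁻¹ * b⁻¹ = b⁻¹ * a⁻¹ := by
      rw [← mul_inv_rev, ← mul_inv_rev, hab]
    calc t = (b * a) * g * (a⁻¹ * b⁻¹) := by rw [ht]; group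
      _ = (a * b) * g * (b⁻¹ * a⁻¹) := by rw [h1, hab]
      _ = _ := by group
  have h1 : ⁅⁅g, a⁆, b⁆ = g * u * (t * v) := by
    simp only [commutatorElement_def, hu, hv, ht]
    group
  have h2 : ⁅⁅g, b⁆, a⁆ = g * v * (t * u) := by
    rw [ht']
    simp only [commutatorElement_def, hu, hv]
    group
  rw [h1, h2]
  have e1 := hM _ htm _ hum
  have e2 := hM _ htm _ hvm
  have e3 := hM _ hum _ hvm
  calc g * u * (t * v) = g * (u * (v * t)) := by rw [e2]; group
    _ = g * (u * v * t) := by group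
    _ = g * (v * u * t) := by rw [e3]
    _ = g * (v * (t * u)) := by rw [e1]; group
    _ = _ := by group

variable (hM : ∀ a ∈ M, ∀ b ∈ M, a * b = b * a) {x : L → Q} (hx : ∀ l, ∀ m ∈ M, x l * m * (x l)⁻¹ ∈ M)

include hx in
theorem comm_mem {g : Q} (hg : g ∈ M) (l : L) : ⁅g, x l⁆ ∈ M := by
  have : ⁅g, x l⁆ = g * (x l * g⁻¹ * (x l)⁻¹) := by rw [commutatorElement_def]; group
  rw [this]
  exact mul_mem hg (hx l _ (inv_mem hg))

include hx in
theorem cg_mem {g : Q} (hg : g ∈ M) (ls : List L) : cg x g ls ∈ M := by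
  induction ls generalizing g with
  | nil => exact hg
  | cons l ls ih => exact ih (comm_mem hx hg l)

include hM hx in
theorem cg_swap1 {g : Q} (hg : g ∈ M) (l : L) (ls : List L)
    (h : ∀ l' ∈ ls, x l * x l' = x l' * x l) : cg x ⁅g, x l⁆ ls = ⁅cg x g ls, x l⁆ := by
  induction ls generalizing g with
  | nil => rfl
  | cons l' ls ih =>
    have h1 : ⁅⁅g, x l⁆, x l'⁆ = ⁅⁅g, x l'⁆, x l⁆ :=
      comm_comm hM (h l' (by simp)) hg (hx l) (hx l')
    change cg x ⁅⁅g, x l⁆, x l'⁆ ls = ⁅cg x ⁅g, x l'⁆ ls, x l⁆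
    rw [h1]
    exact ih (comm_mem hx hg l') fun l'' hl => h l'' (by simp [hl])

include hM hx in
theorem cg_swap {g : Q} (hg : g ∈ M) (ls ls' : List L)
    (h : ∀ l ∈ ls, ∀ l' ∈ ls', x l * x l' = x l' * x l) :
    cg x (cg x g ls) ls' = cg x (cg x g ls') ls := by
  induction ls generalizing g with
  | nil => rfl
  | cons l ls ih =>
    change cg x (cg x ⁅g, x l⁆ ls) ls' = cg x ⁅cg x g ls', x l⁆ ls
    rw [ih (comm_mem hx hg l) fun l1 h1 => h l1 (by simp [h1]),
      cg_swap1 hM hx hg l ls' (h l (by simp))]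

end

section
variable {K A : Type} {Q : Type} [Group Q] {M : Subgroup Q} {x : K × A → Q}

theorem lets_cons (k : K) (ks : List K) (c : K → List A) :
    lets (k :: ks) c = (c k).map (fun a => (k, a)) ++ lets ks c := rfl

theorem mem_lets {ks : List K} {c : K → List A} {l : K × A} (h : l ∈ lets ks c) : l.1 ∈ ks := by
  simp only [lets, List.mem_flatMap, List.mem_map] at h
  obtain ⟨k, hk, a, _, rfl⟩ := h
  exact hk

theorem cg_app (hM : ∀ a ∈ M, ∀ b ∈ M, a * b = b * a) (hx : ∀ l, ∀ m ∈ M, x l * m * (x l)⁻¹ ∈ M)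
    (hc : ∀ l l' : K × A, l.1 ≠ l'.1 → x l * x l' = x l' * x l) {ks : List K} (hks : ks.Nodup)
    {g : Q} (hg : g ∈ M) (U α : K → List A) :
    cg x g (lets ks (app U α)) = cg x (cg x g (lets ks U)) (lets ks α) := by
  induction ks generalizing g with
  | nil => rfl
  | cons k ks ih =>
    rw [List.nodup_cons] at hks
    have e : (app U α k).map (fun a => (k, a)) =
      (U k).map (fun a => (k, a)) ++ (α k).map (fun a => (k, a)) := by simp [app]
    rw [lets_cons, lets_cons, lets_cons, e]
    simp only [cg_append]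
    rw [ih hks.2 (cg_mem hx (cg_mem hx hg _) _)]
    congr 1
    apply cg_swap hM hx (cg_mem hx hg _)
    intro l hl l' hl'
    apply hc
    simp only [List.mem_map] at hl
    obtain ⟨a, _, rfl⟩ := hl
    intro e
    exact hks.1 (by rw [show k = l'.1 from e]; exact mem_lets hl')

end

theorem chain {K A : Type} [Fintype K] [Fintype A] {ks : List K} (hks : ks.Nodup)
    {rs : List ((K → List A) × (K → List A))} {c c' : K → List A}
    (h : ReflTransGen (Rw rs) c c') (Q : Type) [Group Q] (x : Option (K × A) → Q)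
    (hz : x none ^ 2 = 1)
    (hc : ∀ w ∈ Subgroup.closure (Set.range x), Commute (x none) (w⁻¹ * x none * w))
    (hR : ∀ R ∈ Rels ks rs, ev x R = 1) : ev x (TW ks c c') = 1 := by
  classical
  set W := Subgroup.closure (Set.range x) with hW
  set E : Set Q := {m | ∃ w ∈ W, m = w⁻¹ * x none * w} with hE
  set M : Subgroup Q := Subgroup.closure E with hMdef
  have hEE : ∀ a ∈ E, ∀ b ∈ E, a * b = b * a := by
    rintro _ ⟨w, hw, rfl⟩ _ ⟨v, hv, rfl⟩
    have h1 := hc (v * w⁻¹) (mul_mem hv (inv_mem hw))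
    have h2 : x none * ((v * w⁻¹)⁻¹ * x none * (v * w⁻¹)) =
      (v * w⁻¹)⁻¹ * x none * (v * w⁻¹) * x none := h1
    calc w⁻¹ * x none * w * (v⁻¹ * x none * v) =
        w⁻¹ * (x none * ((v * w⁻¹)⁻¹ * x none * (v * w⁻¹))) * w := by group
      _ = w⁻¹ * ((v * w⁻¹)⁻¹ * x none * (v * w⁻¹) * x none) * w := by rw [h2]
      _ = _ := by group
  have hM : ∀ a ∈ M, ∀ b ∈ M, a * b = b * a := by
    have h1 : M ≤ Subgroup.centralizer E := by
      rw [hMdef, Subgroup.closure_le]
      intro a ha
      rw [SetLike.mem_coe, Subgroup.mem_centralizer_iff]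
      intro b hb
      exact hEE b hb a ha
    have h2 : M ≤ Subgroup.centralizer (M : Set Q) := by
      conv_lhs => rw [hMdef]
      rw [Subgroup.closure_le]
      intro a ha
      rw [SetLike.mem_coe, Subgroup.mem_centralizer_iff]
      intro b hb
      have := Subgroup.mem_centralizer_iff.1 (h1 hb) a ha
      exact this.symm
    intro a ha b hb
    exact Subgroup.mem_centralizer_iff.1 (h2 hb) a ha
  have hxM : ∀ l : K × A, ∀ m ∈ M, x (some l) * m * (x (some l))⁻¹ ∈ M := by
    intro l m hm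
    have hxl : x (some l) ∈ W := Subgroup.subset_closure ⟨_, rfl⟩
    induction hm using Subgroup.closure_induction with
    | mem m hm =>
      obtain ⟨w, hw, rfl⟩ := hm
      refine Subgroup.subset_closure ⟨w * (x (some l))⁻¹, mul_mem hw (inv_mem hxl), ?_⟩
      group
    | one => simp
    | mul a b _ _ h1 h2 =>
      have := mul_mem h1 h2
      convert this using 1
      group
    | inv a _ h1 =>
      have := inv_mem h1
      convert this using 1
      group
  have hzM : x none ∈ M := Subgroup.subset_closure ⟨1, one_mem _, by simp⟩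
  have hcc : ∀ l l' : K × A, l.1 ≠ l'.1 → x (some l) * x (some l') = x (some l') * x (some l) := by
    intro l l' hl
    have hmem : wcomm (wvar (some l)) (wvar (some l')) ∈ Rels ks rs := by
      simp only [Rels, List.mem_append, List.mem_map, List.mem_filter, Finset.mem_toList,
        Finset.mem_univ, true_and]
      exact Or.inl (Or.inr ⟨(l, l'), by simpa using hl, rfl⟩)
    have := hR _ hmem
    simp only [ev_comm, ev_wvar] at this
    exact commutatorElement_eq_one_iff_mul_comm.1 this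
  have hstep : ∀ c c', Rw rs c c' → cg (fun l => x (some l)) (x none) (lets ks c) =
      cg (fun l => x (some l)) (x none) (lets ks c') := by
    rintro _ _ ⟨r, hr, α, rfl, rfl⟩
    rw [cg_app hM hxM hcc hks hzM, cg_app hM hxM hcc hks hzM]
    congr 1
    have hmem : TW ks r.1 r.2 ∈ Rels ks rs := by
      simp only [Rels, List.mem_append, List.mem_map]
      exact Or.inr ⟨r, hr, rfl⟩
    have := hR _ hmem
    rw [TW, ev_append, ev_inv, mul_inv_eq_one, EW, EW, ev_cw, ev_cw] at this
    exact this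
  have key : cg (fun l => x (some l)) (x none) (lets ks c) =
      cg (fun l => x (some l)) (x none) (lets ks c') := by
    induction h with
    | refl => rfl
    | tail _ h2 ih => exact ih.trans (hstep _ _ h2)
  rw [TW, ev_append, ev_inv, mul_inv_eq_one, EW, EW, ev_cw, ev_cw, key]

end Pool.Agent.Kuz
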