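import Pool.Agent.Lib_MP_8720f8_lc.Defs

/-!
# Computability of the target word (for MP_8720f8_lc)
-/

namespace Pool.Agent.Kuz

/-! ### substitution and the word operations -/

section
variable {α β : Type}

theorem wsubst_append (U : α → Wd β) (u v : Wd α) :
    wsubst U (u ++ v) = wsubst U u ++ wsubst U v := by
  simp [wsubst]

theorem winv_append (u v : Wd α) : winv (u ++ v) = winv v ++ winv u := by
  simp [winv]

theorem winv_winv (u : Wd α) : winv (winv u) = u := by
  unfold winv
  rw [List.map_reverse, List.reverse_reverse, List.map_map]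
  conv_rhs => rw [← List.map_id u]
  apply List.map_congr_left
  rintro ⟨a, b⟩ _
  simp

theorem wsubst_winv (U : α → Wd β) (u : Wd α) : wsubst U (winv u) = winv (wsubst U u) := by
  induction u with
  | nil => simp [winv, wsubst]
  | cons p u ih =>
    have h : winv (p :: u) = winv u ++ [(p.1, !p.2)] := by simp [winv]
    have h' : wsubst U (p :: u) = (if p.2 then U p.1 else winv (U p.1)) ++ wsubst U u := by
      simp [wsubst]
    rw [h, wsubst_append, ih, h', winv_append]
    congr 1
    rcases p with ⟨a, b⟩
    cases b <;> simp [wsubst, winv_winv]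

theorem wsubst_wvar (U : α → Wd β) (a : α) : wsubst U (wvar a) = U a := by
  simp [wsubst, wvar]

theorem wsubst_wcomm (U : α → Wd β) (u v : Wd α) :
    wsubst U (wcomm u v) = wcomm (wsubst U u) (wsubst U v) := by
  simp only [wcomm, wsubst_append, wsubst_winv]

end

theorem wsubst_foldl {L : Type} {β : Type} (U : Option L → Wd β) (ls : List L)
    (w : Wd (Option L)) :
    wsubst U (ls.foldl (fun w l => wcomm w (wvar (some l))) w) =
      ls.foldl (fun w l => wcomm w (U (some l))) (wsubst U w) := by
  induction ls generalizing w with
  | nil => rfl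
  | cons l ls ih => rw [List.foldl_cons, List.foldl_cons, ih, wsubst_wcomm, wsubst_wvar]

theorem wsubst_cw {L : Type} {β : Type} (U : Option L → Wd β) (ls : List L) :
    wsubst U (cw ls) = ls.foldl (fun w l => wcomm w (U (some l))) (U none) := by
  rw [cw, wsubst_foldl, wsubst_wvar]

/-! ### computability -/

theorem primrec_winv : Primrec (winv : Wd ℕ → Wd ℕ) := by
  unfold winv
  refine Primrec.list_reverse.comp (Primrec.list_map Primrec.id ?_)
  exact Primrec.pair (Primrec.fst.comp Primrec.snd) (Primrec.not.comp (Primrec.snd.comp Primrec.snd))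

theorem primrec_wcomm : Primrec₂ (wcomm : Wd ℕ → Wd ℕ → Wd ℕ) := by
  unfold wcomm
  refine Primrec.list_append.comp (Primrec.list_append.comp (Primrec.list_append.comp
    Primrec.fst Primrec.snd) (primrec_winv.comp Primrec.fst)) (primrec_winv.comp Primrec.snd)

theorem primrec_foldl {L : Type} (V : L → Wd ℕ) (ls : List L) {Y : ℕ → Wd ℕ} (hY : Primrec Y) :
    Primrec fun m => ls.foldl (fun w l => wcomm w (V l)) (Y m) := by
  induction ls generalizing Y with
  | nil => simpa using hY
  | cons l ls ih =>
    simp only [List.foldl_cons]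
    exact ih (primrec_wcomm.comp hY (Primrec.const _))

theorem foldl_replicate {L β : Type} (f : β → L → β) (x y : L) (m : ℕ) (w : β) :
    (List.replicate m [x, y]).flatten.foldl f w = (fun w => f (f w x) y)^[m] w := by
  induction m generalizing w with
  | zero => rfl
  | succ m ih =>
    rw [List.replicate_succ, List.flatten_cons, List.foldl_append, ih, Function.iterate_succ_apply]
    rfl

/-! ### letters of the start configuration -/

section
variable {Q κ Γ : Type} [DecidableEq κ]

theorem lets_append {K A : Type} (ks ks' : List K) (c : K → List A) :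
    lets (ks ++ ks') c = lets ks c ++ lets ks' c := by
  simp [lets]

theorem lets_congr {K A : Type} (ks : List K) {c c' : K → List A} (h : ∀ k ∈ ks, c k = c' k) :
    lets ks c = lets ks c' := by
  unfold lets
  apply List.flatMap_congr
  intro k hk
  rw [h k hk]

theorem enc_init_congr (q0 : Q) (k0 : κ) (a b : Γ) (m : ℕ) {k : Option κ} (hk : k ≠ some k0) :
    enc q0 (initStk k0 a b m) [] k = enc q0 (initStk k0 a b 0) [] k := by
  rcases k with _ | j
  · rfl
  · have hj : j ≠ k0 := fun h => hk (by rw [h])
    simp [enc, initStk, Function.update_of_ne hj]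

theorem lets_init {ks : List (Option κ)} (hks : ks.Nodup) (q0 : Q) (k0 : κ) (a b : Γ) :
    (∀ m, lets ks (enc q0 (initStk k0 a b m) []) = lets ks (enc q0 (initStk k0 a b 0) [])) ∨
    ∃ (pre suf : List (Option κ × Sy Q Γ)) (x y : Option κ × Sy Q Γ),
      ∀ m, lets ks (enc q0 (initStk k0 a b m) []) =
        pre ++ (List.replicate m [x, y]).flatten ++ suf := by
  by_cases h : some k0 ∈ ks
  · right
    obtain ⟨ks1, ks2, rfl⟩ := List.append_of_mem h
    have h1 : some k0 ∉ ks1 := by
      intro h1
      rw [List.nodup_append] at hks
      exact hks.2.2 _ h1 _ (List.mem_cons_self ..) rfl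
    have h2 : some k0 ∉ ks2 := by
      rw [List.nodup_append, List.nodup_cons] at hks
      exact hks.2.1.1
    refine ⟨lets ks1 (enc q0 (initStk k0 a b 0) []),
      (some k0, Sum.inr (Sum.inr none)) :: lets ks2 (enc q0 (initStk k0 a b 0) []),
      (some k0, Sum.inr (Sum.inr (some a))), (some k0, Sum.inr (Sum.inr (some b))), fun m => ?_⟩
    rw [lets_append, List.append_assoc]
    congr 1
    · exact lets_congr _ fun k hk => enc_init_congr q0 k0 a b m fun e => h1 (e ▸ hk)
    · have : some k0 :: ks2 = [some k0] ++ ks2 := rfl
      rw [this, lets_append]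
      have e2 : lets ks2 (enc q0 (initStk k0 a b m) []) = lets ks2 (enc q0 (initStk k0 a b 0) []) :=
        lets_congr _ fun k hk => enc_init_congr q0 k0 a b m fun e => h2 (e ▸ hk)
      rw [e2]
      have e1 : lets [some k0] (enc q0 (initStk k0 a b m) ([] : List (Q × Option Γ))) =
          (List.replicate m [((some k0 : Option κ), (Sum.inr (Sum.inr (some a)) : Sy Q Γ)),
            (some k0, Sum.inr (Sum.inr (some b)))]).flatten ++ [(some k0, Sum.inr (Sum.inr none))] := by
        simp only [lets, enc, initStk, Function.update_self, List.flatMap_cons, List.flatMap_nil,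
          List.append_nil, List.map_append, List.map_map, List.map_cons, List.map_nil]
        congr 1
        rw [List.map_flatten, List.map_replicate]
        rfl
      rw [e1, List.append_assoc]
      rfl
  · left
    intro m
    exact lets_congr _ fun k hk => enc_init_congr q0 k0 a b m fun e => h (e ▸ hk)

end

theorem computable_Aw {Q κ Γ : Type} [DecidableEq κ] (n : ℕ)
    (p : Option (Option κ × Sy Q Γ) × Bool → ℕ) {ks : List (Option κ)} (hks : ks.Nodup)
    (q0 acc : Q) (k0 : κ) (a b : Γ) :
    Computable fun m => Aw n p (TW ks (enc q0 (initStk k0 a b m) []) (enc acc (fun _ => []) [])) := by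
  refine Primrec.to_comp ?_
  unfold Aw TW
  simp only [wsubst_append]
  refine Primrec.list_append.comp (Primrec.const _) (Primrec.list_append.comp ?_ (Primrec.const _))
  unfold EW
  simp only [wsubst_cw]
  rcases lets_init hks q0 k0 a b with h | ⟨pre, suf, x, y, h⟩
  · simp only [h]
    exact Primrec.const _
  · simp only [h, List.foldl_append, foldl_replicate]
    refine primrec_foldl (fun l => XW n p (some l)) suf ?_
    refine Primrec.nat_iterate Primrec.id (Primrec.const _) ?_
    exact primrec_wcomm.comp (primrec_wcomm.comp Primrec.snd (Primrec.const _)) (Primrec.const _)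

end Pool.Agent.Kuz
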