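import Mathlib

/-!
# Multi-stack machines (for MP_8720f8_lc)

`Mach Q κ Γ`: in state `q` the machine looks at the stack `stk q` (if `stk q = none` the state is
terminal), reads the top symbol `o` of that stack (`none` if the stack is empty), replaces this top
symbol by the word `wr q o`, and goes to the state `nxt q o`.
-/

namespace Pool.Agent.Kuz

open Relation Function

structure Mach (Q κ Γ : Type) where
  stk : Q → Option κ
  nxt : Q → Option Γ → Q
  wr : Q → Option Γ → List Γ

variable {Q κ Γ : Type} [DecidableEq κ]

def Mach.step (M : Mach Q κ Γ) (c : Q × (κ → List Γ)) : Option (Q × (κ → List Γ)) :=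
  (M.stk c.1).map fun k =>
    (M.nxt c.1 (c.2 k).head?, update c.2 k (M.wr c.1 (c.2 k).head? ++ (c.2 k).tail))

/-- the run relation -/
def Mach.Runs (M : Mach Q κ Γ) : Q × (κ → List Γ) → Q × (κ → List Γ) → Prop :=
  ReflTransGen fun c c' => c' ∈ M.step c

/-- the stacks at the start: the word `(a b)^m` on the stack `k0`, the others empty. -/
def initStk (k0 : κ) (a b : Γ) (m : ℕ) : κ → List Γ :=
  update (fun _ => []) k0 (List.replicate m [a, b]).flatten

end Pool.Agent.Kuz
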