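import Pool.Agent.Lib_MP_8720f8_lc.Words
import Pool.Agent.Lib_MP_8720f8_lc.Mach

/-!
# Definitions for MP_8720f8_lc

* the payload words, the list of words `Bw` and the target word `Aw` for a list of relators;
* rewriting systems on families of stacks, their relators;
* the encoding of a multi-stack machine by such a rewriting system.
-/

namespace Pool.Agent.Kuz

open scoped commutatorElement

/-! ### payload -/

section Payload
variable {Γ : Type}

/-- the word `s^{-p} b^n s^p` (where `s = x_1`, `b = x_2`) -/
def eW (n p : ℕ) : Wd ℕ := wpow (winv (wvar 1)) p ++ wpow (wvar 2) n ++ wpow (wvar 1) p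

/-- the payload word of `γ` -/
def XW (n : ℕ) (p : Γ × Bool → ℕ) (γ : Γ) : Wd ℕ := wcomm (eW n (p (γ, false))) (eW n (p (γ, true)))

/-- the basic words -/
def Bw (gs : List Γ) (z : Γ) (n : ℕ) (p : Γ × Bool → ℕ) (Rs : List (Wd Γ)) : List (Wd ℕ) :=
  [XW n p z, wvar 0 ++ wcomm (XW n p z) (wpow (wvar 3) n)] ++
    gs.map (fun γ => winv (XW n p γ) ++ wvar 0 ++ XW n p γ) ++
      Rs.map fun R => wvar 0 ++ wsubst (XW n p) R

/-- the target word -/
def Aw (n : ℕ) (p : Γ × Bool → ℕ) (T : Wd Γ) : Wd ℕ := wvar 0 ++ wsubst (XW n p) T

end Payload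

/-! ### rewriting systems on families of stacks -/

section Rewriting
variable {K A : Type}

/-- put the stacks `α` below the stacks `U` -/
def app (U α : K → List A) : K → List A := fun k => U k ++ α k

/-- one step of the rewriting system with the rules `rs` -/
def Rw (rs : List ((K → List A) × (K → List A))) (c c' : K → List A) : Prop :=
  ∃ r ∈ rs, ∃ α, c = app r.1 α ∧ c' = app r.2 α

/-- the letters of a configuration, stack by stack, top first -/
def lets (ks : List K) (c : K → List A) : List (K × A) := ks.flatMap fun k => (c k).map fun a => (k, a)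

/-- the iterated commutator `⁅..⁅⁅z, l_1⁆, l_2⁆.., l_r⁆` -/
def cw {L : Type} (ls : List L) : Wd (Option L) :=
  ls.foldl (fun w l => wcomm w (wvar (some l))) (wvar none)

/-- the word `E(c)` -/
def EW (ks : List K) (c : K → List A) : Wd (Option (K × A)) := cw (lets ks c)

/-- the word `E(c) E(c')⁻¹` -/
def TW (ks : List K) (c c' : K → List A) : Wd (Option (K × A)) := EW ks c ++ winv (EW ks c')

open Classical in
/-- the relators: `z^2`, the commutators of letters of different stacks, `E(U) E(V)⁻¹` for each rule -/
noncomputable def Rels [Fintype K] [Fintype A] (ks : List K)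
    (rs : List ((K → List A) × (K → List A))) : List (Wd (Option (K × A))) :=
  [wvar none ++ wvar none] ++
    ((Finset.univ : Finset ((K × A) × (K × A))).toList.filter fun l => l.1.1 ≠ l.2.1).map
      (fun l => wcomm (wvar (some l.1)) (wvar (some l.2))) ++
    rs.map fun r => TW ks r.1 r.2

end Rewriting

/-! ### the rewriting system of a machine -/

section Machine
variable {Q κ Γ : Type}

/-- the symbols: states, history letters, stack letters (`none` marks the bottom of a stack) -/
abbrev Sy (Q Γ : Type) := Q ⊕ (Q × Option Γ) ⊕ Option Γ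

/-- the configuration of the rewriting system: control stack (state, history) and work stacks -/
def enc (q : Q) (S : κ → List Γ) (H : List (Q × Option Γ)) : Option κ → List (Sy Q Γ)
  | none => Sum.inl q :: H.map fun h => Sum.inr (Sum.inl h)
  | some k => (S k).map (fun a => Sum.inr (Sum.inr (some a))) ++ [Sum.inr (Sum.inr none)]

/-- the family of stacks with `u` on the control stack, `v` on the stack `k` and nothing else -/
def fam [DecidableEq κ] (u : List (Sy Q Γ)) (k : κ) (v : List (Sy Q Γ)) :
    Option κ → List (Sy Q Γ)
  | none => u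
  | some j => if j = k then v else []

/-- the rule simulating a step in the state `q`, reading `o` on the stack `k` -/
def stepRule [DecidableEq κ] (M : Mach Q κ Γ) (q : Q) (k : κ) (o : Option Γ) :
    (Option κ → List (Sy Q Γ)) × (Option κ → List (Sy Q Γ)) :=
  (fam [Sum.inl q] k [Sum.inr (Sum.inr o)],
    fam [Sum.inl (M.nxt q o), Sum.inr (Sum.inl (q, o))] k
      ((M.wr q o).map (fun a => Sum.inr (Sum.inr (some a))) ++
        match o with
        | none => [Sum.inr (Sum.inr none)]
        | some _ => []))

/-- erase a history letter in the state `acc` -/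
def eraseH [DecidableEq κ] (acc : Q) (k : κ) (h : Q × Option Γ) :
    (Option κ → List (Sy Q Γ)) × (Option κ → List (Sy Q Γ)) :=
  (fam [Sum.inl acc, Sum.inr (Sum.inl h)] k [], fam [Sum.inl acc] k [])

/-- erase a stack letter in the state `acc` -/
def eraseS [DecidableEq κ] (acc : Q) (k : κ) (a : Γ) :
    (Option κ → List (Sy Q Γ)) × (Option κ → List (Sy Q Γ)) :=
  (fam [Sum.inl acc] k [Sum.inr (Sum.inr (some a))], fam [Sum.inl acc] k [])

open Classical in
/-- the rules of the machine -/
noncomputable def mrules [Fintype Q] [Fintype κ] [DecidableEq κ] [Fintype Γ] (M : Mach Q κ Γ)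
    (acc : Q) : List ((Option κ → List (Sy Q Γ)) × (Option κ → List (Sy Q Γ))) :=
  ((Finset.univ : Finset (Q × κ × Option Γ)).toList.filter fun t => M.stk t.1 = some t.2.1).map
      (fun t => stepRule M t.1 t.2.1 t.2.2) ++
    (Finset.univ : Finset (κ × Q × Option Γ)).toList.map (fun t => eraseH acc t.1 t.2) ++
    (Finset.univ : Finset (κ × Γ)).toList.map fun t => eraseS acc t.1 t.2

end Machine

end Pool.Agent.Kuz
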