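import Pool.Agent.Lib_MP_8720f8_lc.Defs

/-!
# The formal part (for MP_8720f8_lc)

If the target relation follows, in all groups, from the relators, from `z^2 = 1` and from the
commutation of the conjugates of `z`, then the target word is expressible on all finite groups.
-/

namespace Pool.Agent.Kuz

open scoped commutatorElement

section
variable {Γ : Type} {G : Type} [Group G]

/-- the payload of `γ` as a function of `s`, `b` -/
def Xf (G : Type) [Group G] (n : ℕ) (p : Γ × Bool → ℕ) (γ : Γ) : G → G → G := fun s b =>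
  ⁅s⁻¹ ^ p (γ, false) * b ^ n * s ^ p (γ, false), s⁻¹ ^ p (γ, true) * b ^ n * s ^ p (γ, true)⁆

theorem ev_XW (n : ℕ) (p : Γ × Bool → ℕ) (γ : Γ) (x : ℕ → G) :
    ev x (XW n p γ) = Xf G n p γ (x 1) (x 2) := by
  simp [XW, eW, Xf, mul_assoc]

theorem ev_wsubst_XW (n : ℕ) (p : Γ × Bool → ℕ) (w : Wd Γ) (x : ℕ → G) :
    ev x (wsubst (XW n p) w) = ev (Xf G n p) w (x 1) (x 2) := by
  rw [ev_subst]
  have h1 := map_ev (Pi.evalMonoidHom (fun _ : G => G → G) (x 1)) (Xf G n p) w
  have h2 := map_ev (Pi.evalMonoidHom (fun _ : G => G) (x 2)) (fun a => Xf G n p a (x 1)) w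
  simp only [Pi.evalMonoidHom_apply] at h1 h2
  rw [h1, h2]
  congr 1
  funext γ
  exact ev_XW n p γ x

/-- inverses are positive powers in a finite group -/
theorem inv_eq_pow_card {P : Type} [Group P] [Finite P] (w : P) : w⁻¹ = w ^ (Nat.card P - 1) := by
  apply inv_eq_of_mul_eq_one_left
  rw [← pow_succ, Nat.sub_add_cancel Nat.card_pos, pow_card_eq_one']

end

section
variable {Γ : Type} {gs : List Γ} {z : Γ} {n : ℕ} {p : Γ × Bool → ℕ} {Rs : List (Wd Γ)}
  {G : Type} [Group G] {Bs : List (Wd ℕ)}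

/-- `y * F(s, b)` is a term function -/
def MulT (Bs : List (Wd ℕ)) (F : G → G → G) : Prop := TF G Bs fun x => x 0 * F (x 1) (x 2)

/-- `w(s,b)⁻¹ * y * w(s, b)` is a term function -/
def ConjT (Bs : List (Wd ℕ)) (w : G → G → G) : Prop :=
  TF G Bs fun x => (w (x 1) (x 2))⁻¹ * x 0 * w (x 1) (x 2)

/-- substitution of a term function for `x_0` -/
theorem TF.subst0 {F U : (ℕ → G) → G} (hF : TF G Bs F) (hU : TF G Bs U) :
    TF G Bs fun x => F fun i => if i = 0 then U x else x i := by
  have := TF.subst (U := fun i x => if i = 0 then U x else x i) hF fun i => by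
    by_cases h : i = 0
    · simpa [h] using hU
    · simpa [h] using TF.var i
  exact this

theorem TF.subst3 {F U : (ℕ → G) → G} (hF : TF G Bs F) (hU : TF G Bs U) :
    TF G Bs fun x => F fun i => if i = 3 then U x else x i := by
  have := TF.subst (U := fun i x => if i = 3 then U x else x i) hF fun i => by
    by_cases h : i = 3
    · simpa [h] using hU
    · simpa [h] using TF.var i
  exact this

theorem MulT.one : MulT (G := G) Bs 1 := (TF.var 0).congr fun x => by simp

theorem MulT.mul {F F' : G → G → G} (h : MulT Bs F) (h' : MulT Bs F') : MulT Bs (F * F') :=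
  (TF.subst0 h' h).congr fun x => by simp [mul_assoc]

theorem MulT.pow {F : G → G → G} (h : MulT Bs F) (k : ℕ) : MulT Bs (F ^ k) := by
  induction k with
  | zero => simpa using MulT.one
  | succ k ih => rw [pow_succ]; exact ih.mul h

theorem MulT.inv [Finite G] {F : G → G → G} (h : MulT Bs F) : MulT Bs F⁻¹ := by
  rw [inv_eq_pow_card]; exact h.pow _

theorem ConjT.one : ConjT (G := G) Bs 1 := (TF.var 0).congr fun x => by simp

theorem ConjT.mul {F F' : G → G → G} (h : ConjT Bs F) (h' : ConjT Bs F') : ConjT Bs (F * F') :=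
  (TF.subst0 h' h).congr fun x => by simp [mul_assoc]

theorem ConjT.pow {F : G → G → G} (h : ConjT Bs F) (k : ℕ) : ConjT Bs (F ^ k) := by
  induction k with
  | zero => simpa using ConjT.one
  | succ k ih => rw [pow_succ]; exact ih.mul h

theorem ConjT.inv [Finite G] {F : G → G → G} (h : ConjT Bs F) : ConjT Bs F⁻¹ := by
  rw [inv_eq_pow_card]; exact h.pow _

theorem MulT.conj [Finite G] {F w : G → G → G} (h : MulT Bs F) (hw : ConjT Bs w) :
    MulT Bs (w⁻¹ * F * w) :=
  (TF.subst0 hw (TF.subst0 h hw.inv)).congr fun x => by simp [mul_assoc]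

/-- the subgroup of the `F` with `MulT F` -/
def mulSub (G : Type) [Group G] [Finite G] (Bs : List (Wd ℕ)) : Subgroup (G → G → G) where
  carrier := {F | MulT Bs F}
  mul_mem' := fun h h' => h.mul h'
  one_mem' := MulT.one
  inv_mem' := fun h => h.inv

theorem mem_mulSub [Finite G] {F : G → G → G} : F ∈ mulSub G Bs ↔ MulT Bs F := Iff.rfl

theorem conjT_of_mem [Finite G] (hX : ∀ γ, ConjT (G := G) Bs (Xf G n p γ)) {w : G → G → G}
    (hw : w ∈ Subgroup.closure (Set.range (Xf G n p))) : ConjT Bs w := by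
  induction hw using Subgroup.closure_induction with
  | mem x hx => obtain ⟨γ, rfl⟩ := hx; exact hX γ
  | one => exact ConjT.one
  | mul x y _ _ h1 h2 => exact h1.mul h2
  | inv x _ h => exact h.inv

theorem inC_of {Γ : Type} {gs : List Γ} {z : Γ} {n : ℕ} (hn : Odd n) {p : Γ × Bool → ℕ}
    {Rs : List (Wd Γ)} {T : Wd Γ} (hgs : ∀ γ, γ ∈ gs) (hz : wvar z ++ wvar z ∈ Rs)
    (h : ∀ (Q : Type) [Group Q] (x : Γ → Q), x z ^ 2 = 1 →
      (∀ w ∈ Subgroup.closure (Set.range x), Commute (x z) (w⁻¹ * x z * w)) →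
      (∀ R ∈ Rs, ev x R = 1) → ev x T = 1)
    (G : Type) [Group G] [Finite G] : InC G (Bw gs z n p Rs) (Aw n p T) := by
  set Bs := Bw gs z n p Rs with hBs
  -- the basic term functions
  have hX : ∀ γ, ConjT (G := G) Bs (Xf G n p γ) := by
    intro γ
    have : winv (XW n p γ) ++ wvar 0 ++ XW n p γ ∈ Bs := by
      simp only [hBs, Bw, List.mem_append, List.mem_map]
      exact Or.inl (Or.inr ⟨γ, hgs γ, rfl⟩)
    exact (TF.base this).congr fun x => by simp [ev_XW, mul_assoc]
  have hZ : TF G Bs fun x => Xf G n p z (x 1) (x 2) := by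
    have : XW n p z ∈ Bs := by simp [hBs, Bw]
    exact (TF.base this).congr fun x => ev_XW _ _ _ _
  have hE : TF G Bs fun x => x 0 * ⁅Xf G n p z (x 1) (x 2), x 3 ^ n⁆ := by
    have : wvar 0 ++ wcomm (XW n p z) (wpow (wvar 3) n) ∈ Bs := by simp [hBs, Bw]
    exact (TF.base this).congr fun x => by simp [ev_XW]
  have hRs : ∀ R ∈ Rs, MulT (G := G) Bs (ev (Xf G n p) R) := by
    intro R hR
    have : wvar 0 ++ wsubst (XW n p) R ∈ Bs := by
      simp only [hBs, Bw, List.mem_append, List.mem_map]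
      exact Or.inr ⟨R, hR, rfl⟩
    exact (TF.base this).congr fun x => by simp [ev_wsubst_XW]
  -- the group `W` and the normal subgroup of the `F` with `MulT F`
  set W : Subgroup (G → G → G) := Subgroup.closure (Set.range (Xf G n p)) with hW
  have hconj : ∀ w ∈ W, ConjT Bs w := fun w hw => conjT_of_mem hX hw
  set N : Subgroup W := (mulSub G Bs).subgroupOf W with hN
  have hmemN : ∀ w : W, w ∈ N ↔ MulT Bs (w : G → G → G) := fun w => Iff.rfl
  have : N.Normal := ⟨fun F hF w => by
    rw [hmemN] at hF ⊢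
    have := hF.conj (hconj _ (inv_mem w.2))
    simpa using this⟩
  let x' : Γ → W := fun γ => ⟨Xf G n p γ, Subgroup.subset_closure ⟨γ, rfl⟩⟩
  let x : Γ → W ⧸ N := fun γ => QuotientGroup.mk' N (x' γ)
  have hev : ∀ w : Wd Γ, ev x w = 1 ↔ MulT (G := G) Bs (ev (Xf G n p) w) := by
    intro w
    have h1 := map_ev (QuotientGroup.mk' N) x' w
    have h2 := map_ev W.subtype x' w
    rw [show ev x w = QuotientGroup.mk' N (ev x' w) from h1.symm, QuotientGroup.mk'_apply,
      QuotientGroup.eq_one_iff, hmemN]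
    have h3 : ((ev x' w : W) : G → G → G) = ev (Xf G n p) w := h2
    rw [h3]
  have hR' : ∀ R ∈ Rs, ev x R = 1 := fun R hR => (hev R).2 (hRs R hR)
  have hz2 : x z ^ 2 = 1 := by
    have := hR' _ hz
    simpa [pow_two] using this
  have hcom : ∀ w ∈ Subgroup.closure (Set.range x), Commute (x z) (w⁻¹ * x z * w) := by
    intro w _
    obtain ⟨w', rfl⟩ := QuotientGroup.mk'_surjective N w
    have hv : TF G Bs fun y => ((w' : G → G → G)⁻¹ * Xf G n p z * (w' : G → G → G)) (y 1) (y 2) :=
      (TF.subst0 (hconj _ w'.2) hZ).congr fun y => by simp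
    have hE' : MulT (G := G) Bs ⁅Xf G n p z,
        ((w' : G → G → G)⁻¹ * Xf G n p z * (w' : G → G → G)) ^ n⁆ :=
      (TF.subst3 hE hv).congr fun y => by simp [commutatorElement_def]
    have h1 : (⁅x' z, (w'⁻¹ * x' z * w') ^ n⁆ : W) ∈ N := by
      rw [hmemN]
      exact hE'
    have h2 := (QuotientGroup.eq_one_iff (N := N) _).2 h1
    have h3 : (⁅x z, ((QuotientGroup.mk' N w')⁻¹ * x z * QuotientGroup.mk' N w') ^ n⁆ : W ⧸ N) = 1 :=
      h2
    have h4 : ((QuotientGroup.mk' N w')⁻¹ * x z * QuotientGroup.mk' N w') ^ n =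
        (QuotientGroup.mk' N w')⁻¹ * x z * QuotientGroup.mk' N w' := by
      obtain ⟨k, rfl⟩ := hn
      have h5 : ((QuotientGroup.mk' N w')⁻¹ * x z * QuotientGroup.mk' N w') ^ 2 = 1 := by
        have : ((QuotientGroup.mk' N w')⁻¹ * x z * QuotientGroup.mk' N w') ^ 2 =
          (QuotientGroup.mk' N w')⁻¹ * x z ^ 2 * QuotientGroup.mk' N w' := by
          simp [pow_two, mul_assoc]
        rw [this, hz2]
        simp
      rw [pow_add, pow_mul, h5]
      simp
    rw [h4] at h3
    exact commutatorElement_eq_one_iff_commute.1 h3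
  have hT := (hev T).1 (h (W ⧸ N) x hz2 hcom hR')
  have : TF G Bs fun y => ev y (Aw n p T) := by
    refine TF.congr hT fun y => ?_
    simp [Aw, ev_wsubst_XW]
  exact this.inC

end

end Pool.Agent.Kuz
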