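import Pool.Agent.Lib_MP_8720f8_lc.Mach

/-!
# A finite multi-stack machine with recursively inseparable halting sets (for MP_8720f8_lc)

We flatten the TM2 machine of Mathlib (the Turing machine evaluating a partial recursive
function) into the machine model `Mach`.
-/

namespace Pool.Agent.Kuz

open Relation Function
open Turing Turing.PartrecToTM2

namespace Ex

/-! ### The code computing the length of a list of ones -/

open Turing.ToPartrec

/-- one step of the loop: `acc :: 1 :: rest` becomes `1 :: (acc + 1) :: rest`, and `[acc]`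
becomes `[0, acc]`. -/
def stepCode : Code :=
  Code.comp
    (Code.case Code.zero'
      (Code.cons Code.succ (Code.cons (Code.comp Code.succ Code.tail)
        (Code.comp Code.tail (Code.comp Code.tail Code.tail)))))
    (Code.cons (Code.comp Code.head Code.tail) Code.id)

theorem stepCode_nil (k : ℕ) : stepCode.eval [k] = pure [0, k] := by
  simp [stepCode]

theorem stepCode_cons (k : ℕ) (l : List ℕ) :
    stepCode.eval (k :: 1 :: l) = pure (1 :: (k + 1) :: l) := by
  simp [stepCode]

def lenCode : Code := Code.comp (Code.fix stepCode) Code.zero'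

theorem fix_mem (m k : ℕ) :
    [k + m] ∈ (Code.fix stepCode).eval (k :: List.replicate m 1) := by
  induction m generalizing k with
  | zero =>
    rw [Code.fix_eval]
    apply PFun.fix_stop
    simp only [List.replicate_zero, stepCode_nil]
    simp [Part.pure_eq_some]
  | succ m ih =>
    have h := ih (k + 1)
    rw [Code.fix_eval] at h ⊢
    rw [PFun.mem_fix_iff]
    right
    refine ⟨(k + 1) :: List.replicate m 1, ?_, ?_⟩
    · simp only [List.replicate_succ, stepCode_cons]
      simp [Part.pure_eq_some]
    · have e : k + (m + 1) = k + 1 + m := by ring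
      rw [e]
      exact h

theorem lenCode_eval (m : ℕ) : lenCode.eval (List.replicate m 1) = pure [m] := by
  have h := fix_mem m 0
  rw [Nat.zero_add] at h
  simp only [lenCode, Code.comp_eval, Code.zero'_eval, pure_bind]
  exact Part.eq_some_iff.2 h

/-! ### The diagonal function -/

/-- the diagonal function with values `0`, `1`. -/
def diag (m : ℕ) : Part ℕ :=
  (Nat.Partrec.Code.eval (Denumerable.ofNat Nat.Partrec.Code m) m).map fun x => min x 1

theorem diag_partrec : Partrec diag := by
  unfold diag
  refine Partrec.map (Nat.Partrec.Code.eval_part.comp (Computable.ofNat _) Computable.id) ?_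
  exact (Primrec.nat_min.comp Primrec.snd (Primrec.const 1)).to_comp.to₂

theorem exists_code_diag : ∃ c : Code, ∀ m : ℕ,
    c.eval (List.replicate m 1) = (fun x => [x]) <$> diag m := by
  obtain ⟨c, hc⟩ := Code.exists_code (Nat.Partrec'.part_iff₁.2 diag_partrec)
  refine ⟨Code.comp c lenCode, fun m => ?_⟩
  rw [Code.comp_eval]
  simp only [lenCode_eval, pure_bind]
  have := hc (m ::ᵥ List.Vector.nil)
  simp only [List.Vector.head_cons] at this
  exact this

theorem diag_insep (P : ℕ → Prop) (hP : ComputablePred P)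
    (h0 : ∀ m, 0 ∈ diag m → P m) (h1 : ∀ m, 1 ∈ diag m → ¬ P m) : False := by
  obtain ⟨hd, hc⟩ := hP
  have hg : Computable fun m : ℕ => if P m then 1 else 0 := by
    have := (Primrec.cond (Primrec.id (α := Bool)) (Primrec.const (1 : ℕ))
      (Primrec.const (0 : ℕ))).to_comp.comp hc
    refine this.of_eq fun m => ?_
    by_cases h : P m <;> simp [h]
  obtain ⟨c, hc'⟩ := Nat.Partrec.Code.exists_code.1 (Partrec.nat_iff.1 hg.partrec)
  have key : (if P (Encodable.encode c) then 1 else 0) ∈ diag (Encodable.encode c) := by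
    unfold diag
    rw [Denumerable.ofNat_encode, hc']
    by_cases h : P (Encodable.encode c) <;> simp [h]
  by_cases h : P (Encodable.encode c)
  · rw [if_pos h] at key
    exact h1 _ key h
  · rw [if_neg h] at key
    exact h (h0 _ key)

/-! ### Flattening -/

instance : Fintype K' := ⟨{K'.main, K'.rev, K'.aux, K'.stack}, by intro x; cases x <;> decide⟩

/-- states of the flat machine -/
abbrev St : Type := (TM2.Stmt (fun _ : K' => Γ') Λ' (Option Γ') × Option Γ') ⊕ Bool

def flat : Mach St K' Γ' where
  stk
    | Sum.inl (TM2.Stmt.push k _ _, _) => some k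
    | Sum.inl (TM2.Stmt.peek k _ _, _) => some k
    | Sum.inl (TM2.Stmt.pop k _ _, _) => some k
    | Sum.inl (_, _) => some K'.main
    | Sum.inr _ => none
  nxt
    | Sum.inl (TM2.Stmt.push _ _ q, v), _ => Sum.inl (q, v)
    | Sum.inl (TM2.Stmt.peek _ f q, v), o => Sum.inl (q, f v o)
    | Sum.inl (TM2.Stmt.pop _ f q, v), o => Sum.inl (q, f v o)
    | Sum.inl (TM2.Stmt.load a q, v), _ => Sum.inl (q, a v)
    | Sum.inl (TM2.Stmt.branch f q₁ q₂, v), _ => Sum.inl (cond (f v) q₁ q₂, v)
    | Sum.inl (TM2.Stmt.goto l, v), _ => Sum.inl (tr (l v), v)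
    | Sum.inl (TM2.Stmt.halt, _), o => Sum.inr (decide (o = some Γ'.cons))
    | Sum.inr b, _ => Sum.inr b
  wr
    | Sum.inl (TM2.Stmt.push _ f _, v), o => f v :: o.toList
    | Sum.inl (TM2.Stmt.pop _ _ _, _), _ => []
    | _, o => o.toList

theorem toList_head_tail (l : List Γ') : l.head?.toList ++ l.tail = l := by
  cases l <;> rfl

/-- embedding of the configurations -/
def emb : TM2.Cfg (fun _ : K' => Γ') Λ' (Option Γ') → St × (K' → List Γ')
  | ⟨some l, v, S⟩ => (Sum.inl (tr l, v), S)
  | ⟨none, _, S⟩ => (Sum.inr (decide ((S K'.main).head? = some Γ'.cons)), S)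

theorem runs_stepAux (s : TM2.Stmt (fun _ : K' => Γ') Λ' (Option Γ')) (v : Option Γ')
    (S : K' → List Γ') : flat.Runs (Sum.inl (s, v), S) (emb (TM2.stepAux s v S)) := by
  induction s generalizing v S with
  | push k f q ih =>
    refine ReflTransGen.head ?_ (ih v (update S k (f v :: S k)))
    simp only [Mach.step, flat, Option.map_some, Option.mem_def, List.cons_append,
      toList_head_tail]
  | peek k f q ih =>
    refine ReflTransGen.head ?_ (ih (f v (S k).head?) S)
    simp only [Mach.step, flat, Option.map_some, Option.mem_def,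
      toList_head_tail, update_eq_self]
  | pop k f q ih =>
    refine ReflTransGen.head ?_ (ih (f v (S k).head?) (update S k (S k).tail))
    simp only [Mach.step, flat, Option.map_some, Option.mem_def, List.nil_append]
  | load a q ih =>
    refine ReflTransGen.head ?_ (ih (a v) S)
    simp only [Mach.step, flat, Option.map_some, Option.mem_def,
      toList_head_tail, update_eq_self]
  | branch f q₁ q₂ ih₁ ih₂ =>
    refine ReflTransGen.head (b := (Sum.inl (cond (f v) q₁ q₂, v), S)) ?_ ?_
    · simp only [Mach.step, flat, Option.map_some, Option.mem_def,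
        toList_head_tail, update_eq_self]
    · simp only [TM2.stepAux]
      cases f v
      · exact ih₂ v S
      · exact ih₁ v S
  | goto l =>
    refine ReflTransGen.single ?_
    simp only [Mach.step, flat, Option.map_some, Option.mem_def,
      toList_head_tail, update_eq_self, TM2.stepAux, emb]
  | halt =>
    refine ReflTransGen.single ?_
    simp only [Mach.step, flat, Option.map_some, Option.mem_def,
      toList_head_tail, update_eq_self, TM2.stepAux, emb]

theorem runs_reaches {c c' : TM2.Cfg (fun _ : K' => Γ') Λ' (Option Γ')}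
    (h : StateTransition.Reaches (TM2.step tr) c c') : flat.Runs (emb c) (emb c') := by
  induction h with
  | refl => exact ReflTransGen.refl
  | tail _ hbc ih =>
    refine ReflTransGen.trans ih ?_
    rename_i b d _
    obtain ⟨l, v, S⟩ := b
    cases l with
    | none => simp [TM2.step] at hbc
    | some l =>
      simp only [TM2.step, Option.mem_def, Option.some.injEq] at hbc
      rw [← hbc]
      exact runs_stepAux _ _ _

/-! ### Restriction to a closed set of states -/

section Restrict

variable {Q κ Γ : Type} [DecidableEq κ]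

def restrict (M : Mach Q κ Γ) (F : Set Q) (hF : ∀ q ∈ F, ∀ o, M.nxt q o ∈ F) : Mach F κ Γ where
  stk q := M.stk q.1
  nxt q o := ⟨M.nxt q.1 o, hF q.1 q.2 o⟩
  wr q o := M.wr q.1 o

theorem runs_restrict (M : Mach Q κ Γ) (F : Set Q) (hF : ∀ q ∈ F, ∀ o, M.nxt q o ∈ F)
    (q : F) (S : κ → List Γ) (c : Q × (κ → List Γ)) (h : M.Runs (q.1, S) c) :
    ∃ hc : c.1 ∈ F, (restrict M F hF).Runs (q, S) (⟨c.1, hc⟩, c.2) := by
  induction h with
  | refl => exact ⟨q.2, ReflTransGen.refl⟩
  | tail _ hbc ih =>
    obtain ⟨hb, hr⟩ := ih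
    rename_i b d _
    simp only [Mach.step, Option.mem_def, Option.map_eq_some_iff] at hbc
    obtain ⟨k, hk, rfl⟩ := hbc
    refine ⟨hF _ hb _, ReflTransGen.tail hr ?_⟩
    simp only [Mach.step, restrict, Option.mem_def, Option.map_eq_some_iff]
    exact ⟨k, hk, rfl⟩

end Restrict

/-- the reachable states -/
def reach (c : Code) : Set St :=
  {q | match q with
    | Sum.inl (s, _) => ∃ l ∈ codeSupp c Cont'.halt, s ∈ TM2.stmts₁ (tr l)
    | Sum.inr _ => True}

theorem reach_finite (c : Code) : (reach c).Finite := by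
  classical
  have h1 : {s : TM2.Stmt (fun _ : K' => Γ') Λ' (Option Γ') |
      ∃ l ∈ codeSupp c Cont'.halt, s ∈ TM2.stmts₁ (tr l)}.Finite := by
    have : {s : TM2.Stmt (fun _ : K' => Γ') Λ' (Option Γ') |
      ∃ l ∈ codeSupp c Cont'.halt, s ∈ TM2.stmts₁ (tr l)} =
        ⋃ l ∈ codeSupp c Cont'.halt, (TM2.stmts₁ (tr l) : Set _) := by
      ext s; simp
    rw [this]
    exact Set.Finite.biUnion (Finset.finite_toSet _) fun l _ => Finset.finite_toSet _
  refine ((((h1.prod (Set.finite_univ (α := Option Γ'))).image Sum.inl).union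
    ((Set.finite_univ (α := Bool)).image Sum.inr))).subset ?_
  rintro (⟨s, v⟩ | b) hq
  · exact Or.inl ⟨(s, v), ⟨hq, Set.mem_univ _⟩, rfl⟩
  · exact Or.inr ⟨b, Set.mem_univ _, rfl⟩

theorem reach_closed (c : Code) (q : St) (hq : q ∈ reach c) (o : Option Γ') :
    flat.nxt q o ∈ reach c := by
  have hsupp := (tr_supports c Cont'.halt).2
  rcases q with ⟨s, v⟩ | b
  · obtain ⟨l, hl, hs⟩ := hq
    have hss := TM2.stmts₁_supportsStmt_mono hs (hsupp l hl)
    have htr : ∀ s', s' ∈ TM2.stmts₁ s → s' ∈ TM2.stmts₁ (tr l) :=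
      fun s' h => TM2.stmts₁_trans hs h
    cases s with
    | push k f q => exact ⟨l, hl, htr _ (by simp [TM2.stmts₁, TM2.stmts₁_self])⟩
    | peek k f q => exact ⟨l, hl, htr _ (by simp [TM2.stmts₁, TM2.stmts₁_self])⟩
    | pop k f q => exact ⟨l, hl, htr _ (by simp [TM2.stmts₁, TM2.stmts₁_self])⟩
    | load a q => exact ⟨l, hl, htr _ (by simp [TM2.stmts₁, TM2.stmts₁_self])⟩
    | branch f q₁ q₂ =>
      refine ⟨l, hl, htr _ ?_⟩
      cases f v <;> simp [TM2.stmts₁, TM2.stmts₁_self]
    | goto g =>
      exact ⟨g v, hss v, TM2.stmts₁_self⟩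
    | halt => trivial
  · trivial

end Ex

open Ex

theorem exists_mach : ∃ (Q κ Γ : Type) (_ : Fintype Q) (_ : DecidableEq Q) (_ : Fintype κ)
    (_ : DecidableEq κ) (_ : Fintype Γ) (_ : DecidableEq Γ) (M : Mach Q κ Γ) (q0 acc : Q)
    (k0 : κ) (a b : Γ),
    M.stk acc = none ∧
    ¬ ∃ P : ℕ → Prop, ComputablePred P ∧
      (∀ m S, M.Runs (q0, initStk k0 a b m) (acc, S) → P m) ∧
      (∀ m q S, M.stk q = none → q ≠ acc → M.Runs (q0, initStk k0 a b m) (q, S) → ¬ P m) := by
  classical
  obtain ⟨c, hc⟩ := exists_code_diag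
  have hq0 : (Sum.inl (tr (trNormal c Cont'.halt), none) : St) ∈ reach c :=
    ⟨_, (tr_supports c Cont'.halt).1, TM2.stmts₁_self⟩
  have hacc : (Sum.inr true : St) ∈ reach c := trivial
  have hrej : (Sum.inr false : St) ∈ reach c := trivial
  have hlist : ∀ m, trList (List.replicate m 1) =
      (List.replicate m [Γ'.bit1, Γ'.cons]).flatten := by
    intro m
    induction m with
    | zero => rfl
    | succ m ih =>
      rw [List.replicate_succ, List.replicate_succ, trList, ih]
      rfl
  have hinit : ∀ m, emb (Turing.PartrecToTM2.init c (List.replicate m 1)) =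
      ((Sum.inl (tr (trNormal c Cont'.halt), none) : St),
        initStk K'.main Γ'.bit1 Γ'.cons m) := by
    intro m
    simp only [Turing.PartrecToTM2.init, emb, initStk]
    refine Prod.ext rfl ?_
    funext k
    cases k <;> simp [K'.elim, hlist]
  have hrun : ∀ m x, x ∈ diag m → flat.Runs ((Sum.inl (tr (trNormal c Cont'.halt), none) : St),
        initStk K'.main Γ'.bit1 Γ'.cons m) (emb (Turing.PartrecToTM2.halt [x])) := by
    intro m x hx
    rw [← hinit]
    apply runs_reaches
    have h1 : Turing.PartrecToTM2.halt [x] ∈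
        StateTransition.eval (TM2.step tr) (Turing.PartrecToTM2.init c (List.replicate m 1)) := by
      rw [Turing.PartrecToTM2.tr_eval, hc]
      exact Part.mem_map _ (Part.mem_map _ hx)
    exact (StateTransition.mem_eval.1 h1).1
  have h0 : ∀ S, emb (Turing.PartrecToTM2.halt [0]) = (Sum.inr true, S) ↔
      S = (emb (Turing.PartrecToTM2.halt [0])).2 := by
    intro S
    simp [Turing.PartrecToTM2.halt, emb, eq_comm]
  refine ⟨reach c, K', Γ', (reach_finite c).fintype, inferInstance, inferInstance, inferInstance,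
    inferInstance, inferInstance, restrict flat (reach c) (reach_closed c),
    ⟨_, hq0⟩, ⟨_, hacc⟩, K'.main, Γ'.bit1, Γ'.cons, rfl, ?_⟩
  rintro ⟨P, hP, hPacc, hPrej⟩
  refine diag_insep P hP (fun m hm => ?_) (fun m hm => ?_)
  · have h := hrun m 0 hm
    have e : emb (Turing.PartrecToTM2.halt [0]) =
        ((Sum.inr true : St), (emb (Turing.PartrecToTM2.halt [0])).2) := (h0 _).2 rfl
    rw [e] at h
    obtain ⟨_, hr⟩ := runs_restrict flat (reach c) (reach_closed c) ⟨_, hq0⟩ _ _ h
    exact hPacc m _ hr
  · have h := hrun m 1 hm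
    have e : emb (Turing.PartrecToTM2.halt [1]) =
        ((Sum.inr false : St), (emb (Turing.PartrecToTM2.halt [1])).2) := by
      have : trNat 1 = [Γ'.bit1] := rfl
      simp [Turing.PartrecToTM2.halt, emb, this]
    rw [e] at h
    obtain ⟨_, hr⟩ := runs_restrict flat (reach c) (reach_closed c) ⟨_, hq0⟩ _ _ h
    refine hPrej m ⟨_, hrej⟩ _ rfl ?_ hr
    intro hne
    have := congrArg Subtype.val hne
    simp at this

end Pool.Agent.Kuz
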