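import Pool.Agent.Lib_MP_8720f8_lc.Defs

/-!
# The linear model of the relators (MP_8720f8_lc, P4)

The space of functions with values in `ZMod 2` on the families of stacks of bounded length; the
letters act as unipotent maps `v ↦ v + X v`, the letter `z` as a translation.
-/

namespace Pool.Agent.Kuz

open Equiv Function
open scoped commutatorElement

section Model
variable {K A : Type}

/-- families of stacks of length at most `N` -/
def Bd (K A : Type) (N : ℕ) : Set (K → List A) := {α | ∀ k, (α k).length ≤ N}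

theorem Bd_finite [Fintype K] [Fintype A] (N : ℕ) : (Bd K A N).Finite :=
  Set.Finite.pi' fun _ => List.finite_length_le A N

/-- functions vanishing outside `Bd` -/
def VV (K A : Type) (N : ℕ) : Submodule (ZMod 2) ((K → List A) → ZMod 2) where
  carrier := {f | ∀ α, α ∉ Bd K A N → f α = 0}
  add_mem' := fun {f g} hf hg α hα => by
    show f α + g α = 0
    rw [hf α hα, hg α hα, add_zero]
  zero_mem' := fun _ _ => rfl
  smul_mem' := fun c f hf α hα => by
    show c * f α = 0
    rw [hf α hα, mul_zero]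

theorem VV_finite [Fintype K] [Fintype A] (N : ℕ) : Finite (VV K A N) := by
  have : Finite (Bd K A N) := Bd_finite N
  refine Finite.of_injective (fun f : VV K A N => fun α : Bd K A N => f.1 α.1) ?_
  intro f g h
  apply Subtype.ext
  funext α
  by_cases hα : α ∈ Bd K A N
  · exact congrFun h ⟨α, hα⟩
  · rw [f.2 α hα, g.2 α hα]

theorem VV_two {N : ℕ} (v : VV K A N) : v + v = 0 := by
  have h : (2 : ZMod 2) • v = 0 := by
    rw [show (2 : ZMod 2) = 0 from rfl, zero_smul]
  rwa [two_smul] at h

theorem VV_neg {N : ℕ} (v : VV K A N) : -v = v := neg_eq_of_add_eq_zero_left (VV_two v)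

open Classical in
/-- put a letter on the top of its stack -/
noncomputable def pushS (l : K × A) (α : K → List A) : K → List A :=
  Function.update α l.1 (l.2 :: α l.1)

theorem pushS_same (l : K × A) (α : K → List A) : pushS l α l.1 = l.2 :: α l.1 := by
  simp [pushS]

theorem pushS_ne {l : K × A} {k : K} (h : k ≠ l.1) (α : K → List A) : pushS l α k = α k := by
  simp [pushS, h]

theorem pushS_not_mem {N : ℕ} {l : K × A} {α : K → List A} (h : α ∉ Bd K A N) :
    pushS l α ∉ Bd K A N := by
  intro h'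
  apply h
  intro k
  by_cases hk : k = l.1
  · have := h' l.1
    rw [pushS_same, List.length_cons] at this
    rw [hk]; omega
  · have := h' k
    rwa [pushS_ne hk] at this

theorem pushS_comm {l m : K × A} (h : l.1 ≠ m.1) (α : K → List A) :
    pushS l (pushS m α) = pushS m (pushS l α) := by
  funext k
  by_cases h1 : k = l.1
  · subst h1
    rw [pushS_same, pushS_ne h, pushS_ne h, pushS_same]
  · rw [pushS_ne h1]
    by_cases h2 : k = m.1
    · subst h2
      rw [pushS_same, pushS_same, pushS_ne h1]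
    · rw [pushS_ne h2, pushS_ne h2, pushS_ne h1]

/-- the operator of a letter -/
noncomputable def XL (N : ℕ) (l : K × A) : VV K A N →ₗ[ZMod 2] VV K A N where
  toFun := fun f => ⟨fun α => f.1 (pushS l α), fun _ hα => f.2 _ (pushS_not_mem hα)⟩
  map_add' := fun _ _ => rfl
  map_smul' := fun _ _ => rfl

theorem XL_apply {N : ℕ} (l : K × A) (f : VV K A N) (α : K → List A) :
    (XL N l f).1 α = f.1 (pushS l α) := rfl

theorem XL_comm {N : ℕ} {l m : K × A} (h : l.1 ≠ m.1) (f : VV K A N) :
    XL N l (XL N m f) = XL N m (XL N l f) := by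
  apply Subtype.ext
  funext α
  rw [XL_apply, XL_apply, XL_apply, XL_apply, pushS_comm h]

theorem XL_pow_apply {N : ℕ} (l : K × A) (j : ℕ) (f : VV K A N) (α : K → List A) :
    ((XL N l ^ j) f).1 α = f.1 ((pushS l)^[j] α) := by
  induction j generalizing α with
  | zero => rfl
  | succ j ih =>
    rw [pow_succ', Module.End.mul_apply, XL_apply, ih, Function.iterate_succ_apply]

theorem pushS_iterate_length (l : K × A) (j : ℕ) (α : K → List A) :
    ((pushS l)^[j] α l.1).length = (α l.1).length + j := by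
  induction j with
  | zero => rfl
  | succ j ih => rw [Function.iterate_succ_apply', pushS_same, List.length_cons, ih]; rfl

theorem XL_pow_zero {N : ℕ} (l : K × A) {j : ℕ} (hj : N < j) : XL N l ^ j = 0 := by
  refine LinearMap.ext fun f => Subtype.ext (funext fun α => ?_)
  rw [XL_pow_apply]
  refine f.2 _ (fun h => ?_)
  have := h l.1
  rw [pushS_iterate_length] at this
  omega

theorem one_add_pow {R : Type} [Ring R] (h2 : ∀ x : R, x + x = 0) (X : R) (j : ℕ) :
    (1 + X) ^ 2 ^ j = 1 + X ^ 2 ^ j := by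
  induction j with
  | zero => simp
  | succ j ih =>
    rw [pow_succ, pow_mul, ih, pow_mul]
    have h := h2 (X ^ 2 ^ j)
    calc (1 + X ^ 2 ^ j) ^ 2 = 1 + (X ^ 2 ^ j + X ^ 2 ^ j) + (X ^ 2 ^ j) ^ 2 := by noncomm_ring
      _ = 1 + (X ^ 2 ^ j) ^ 2 := by rw [h, add_zero]

theorem XL_unip {N : ℕ} (l : K × A) : (1 + XL N l) ^ 2 ^ (N + 1) = 1 := by
  rw [one_add_pow (fun x => LinearMap.ext fun v => VV_two (x v)), XL_pow_zero, add_zero]
  calc N < N + 1 := Nat.lt_succ_self N
    _ < 2 ^ (N + 1) := Nat.lt_two_pow_self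

/-- the unit `1 + X_l` -/
noncomputable def uL (N : ℕ) (l : K × A) : (Module.End (ZMod 2) (VV K A N))ˣ :=
  Units.ofPowEqOne (1 + XL N l) (2 ^ (N + 1)) (XL_unip l) (by positivity)

/-- the permutation `v ↦ v + X_l v` -/
noncomputable def gL (N : ℕ) (l : K × A) : Perm (VV K A N) :=
  MulAction.toPermHom _ _ (uL N l)

theorem gL_apply {N : ℕ} (l : K × A) (v : VV K A N) : gL N l v = v + XL N l v := rfl

theorem gL_pow {N : ℕ} (l : K × A) : gL N l ^ 2 ^ (N + 1) = 1 := by
  refine Equiv.ext fun v => ?_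
  have h : uL N l ^ 2 ^ (N + 1) = 1 := Units.ext (by
    rw [Units.val_pow_eq_pow_val]
    exact XL_unip l)
  rw [gL, ← map_pow, h, map_one]

theorem gL_inv_apply {N : ℕ} (l : K × A) (v : VV K A N) :
    (gL N l)⁻¹ v + XL N l ((gL N l)⁻¹ v) = v := by
  rw [← gL_apply]
  exact (gL N l).apply_symm_apply v

/-- translations -/
def TT {N : ℕ} (v : VV K A N) : Perm (VV K A N) := Equiv.addRight v

theorem TT_apply {N : ℕ} (v x : VV K A N) : TT v x = x + v := rfl

theorem TT_mul {N : ℕ} (v w : VV K A N) : TT v * TT w = TT (w + v) := by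
  refine Equiv.ext fun x => ?_
  rw [Perm.mul_apply, TT_apply, TT_apply, TT_apply, add_assoc]

theorem TT_zero {N : ℕ} : TT (0 : VV K A N) = 1 := Equiv.ext fun x => by
  rw [TT_apply, add_zero]; rfl

theorem TT_inv {N : ℕ} (v : VV K A N) : (TT v)⁻¹ = TT v := by
  rw [inv_eq_iff_mul_eq_one, TT_mul, VV_two, TT_zero]

theorem gL_conj {N : ℕ} (l : K × A) (v : VV K A N) :
    gL N l * TT v * (gL N l)⁻¹ = TT (v + XL N l v) := by
  refine Equiv.ext fun x => ?_
  rw [Perm.mul_apply, Perm.mul_apply, TT_apply, gL_apply, TT_apply, map_add]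
  have h := gL_inv_apply l x
  generalize (gL N l)⁻¹ x = y at h
  rw [← h]
  abel

theorem TT_comm_gL {N : ℕ} (l : K × A) (v : VV K A N) : ⁅TT v, gL N l⁆ = TT (XL N l v) := by
  rw [commutatorElement_def, TT_inv, mul_assoc, mul_assoc, ← mul_assoc (gL N l), gL_conj, TT_mul]
  congr 1
  rw [add_right_comm, VV_two, zero_add]

theorem gL_commute {N : ℕ} {l m : K × A} (h : l.1 ≠ m.1) : gL N l * gL N m = gL N m * gL N l := by
  refine Equiv.ext fun x => ?_
  rw [Perm.mul_apply, Perm.mul_apply, gL_apply, gL_apply, gL_apply, gL_apply, map_add, map_add,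
    XL_comm h]
  abel

/-- the group of translations -/
def MT (K A : Type) (N : ℕ) : Subgroup (Perm (VV K A N)) where
  carrier := {σ | ∃ v, σ = TT v}
  mul_mem' := by
    rintro _ _ ⟨v, rfl⟩ ⟨w, rfl⟩
    exact ⟨w + v, TT_mul v w⟩
  one_mem' := ⟨0, TT_zero.symm⟩
  inv_mem' := by
    rintro _ ⟨v, rfl⟩
    exact ⟨v, TT_inv v⟩

theorem mem_MT {N : ℕ} {σ : Perm (VV K A N)} : σ ∈ MT K A N ↔ ∃ v, σ = TT v := Iff.rfl

/-- put a letter at the bottom of its stack -/
noncomputable def bot (u : K → List A) (l : K × A) : K → List A :=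
  open Classical in Function.update u l.1 (u l.1 ++ [l.2])

theorem app_bot (u : K → List A) (l : K × A) (α : K → List A) :
    app (bot u l) α = app u (pushS l α) := by
  funext k
  by_cases h : k = l.1
  · subst h
    simp [app, bot, pushS]
  · simp [app, bot, pushS, h]

theorem foldl_bot_single (k : K) (L : List A) (u : K → List A) (k' : K) :
    (L.map fun a => (k, a)).foldl bot u k' = open Classical in if k' = k then u k' ++ L else u k' := by
  induction L generalizing u with
  | nil => simp
  | cons a L ih =>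
    rw [List.map_cons, List.foldl_cons, ih]
    by_cases h : k' = k
    · subst h
      simp [bot]
    · simp [bot, h]

theorem foldl_bot (ks : List K) (hks : ks.Nodup) (c u : K → List A) (k' : K) :
    (lets ks c).foldl bot u k' = open Classical in if k' ∈ ks then u k' ++ c k' else u k' := by
  induction ks generalizing u with
  | nil => simp [lets]
  | cons k ks ih =>
    have h1 : lets (k :: ks) c = (c k).map (fun a => (k, a)) ++ lets ks c := by simp [lets]
    rw [h1, List.foldl_append, ih (List.nodup_cons.1 hks).2, foldl_bot_single]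
    have h2 := (List.nodup_cons.1 hks).1
    by_cases h : k' = k
    · subst h
      simp [h2]
    · rw [if_neg h]
      by_cases h3 : k' ∈ ks
      · rw [if_pos h3, if_pos (List.mem_cons_of_mem _ h3)]
      · rw [if_neg h3, if_neg]
        intro h4
        rcases List.mem_cons.1 h4 with h4 | h4
        · exact h h4
        · exact h3 h4

theorem foldl_bot_nil {ks : List K} (hks : ks.Nodup) (hks' : ∀ k, k ∈ ks) (c : K → List A) :
    (lets ks c).foldl bot (fun _ => []) = c := by
  funext k
  rw [foldl_bot ks hks, if_pos (hks' k), List.nil_append]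

open Classical in
/-- the vector `e(u)` -/
noncomputable def eV {N : ℕ} {C : Set (K → List A)} (hC : C ⊆ Bd K A N) (u : K → List A) :
    VV K A N :=
  ⟨fun α => if app u α ∈ C then 1 else 0, fun α hα => by
    show (if app u α ∈ C then (1 : ZMod 2) else 0) = 0
    rw [if_neg]
    intro h
    apply hα
    intro k
    have h1 := hC h k
    have h2 : (app u α k).length = (u k).length + (α k).length := by
      simp [app]
    omega⟩

theorem XL_eV {N : ℕ} {C : Set (K → List A)} (hC : C ⊆ Bd K A N) (l : K × A) (u : K → List A) :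
    XL N l (eV hC u) = eV hC (bot u l) := by
  classical
  apply Subtype.ext
  funext α
  rw [XL_apply]
  simp only [eV]
  rw [app_bot]

theorem foldl_XL {N : ℕ} {C : Set (K → List A)} (hC : C ⊆ Bd K A N) (ls : List (K × A))
    (u : K → List A) : ls.foldl (fun v l => XL N l v) (eV hC u) = eV hC (ls.foldl bot u) := by
  induction ls generalizing u with
  | nil => rfl
  | cons l ls ih => rw [List.foldl_cons, List.foldl_cons, XL_eV, ih]

/-- the assignment -/
noncomputable def gM {N : ℕ} {C : Set (K → List A)} (hC : C ⊆ Bd K A N) :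
    Option (K × A) → Perm (VV K A N)
  | none => TT (eV hC fun _ => [])
  | some l => gL N l

theorem ev_foldl {N : ℕ} {C : Set (K → List A)} (hC : C ⊆ Bd K A N) (ls : List (K × A))
    (w : Wd (Option (K × A))) (v : VV K A N) (h : ev (gM hC) w = TT v) :
    ev (gM hC) (ls.foldl (fun w l => wcomm w (wvar (some l))) w)
      = TT (ls.foldl (fun v l => XL N l v) v) := by
  induction ls generalizing w v with
  | nil => exact h
  | cons l ls ih =>
    rw [List.foldl_cons, List.foldl_cons]
    apply ih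
    rw [ev_comm, h, ev_wvar]
    exact TT_comm_gL l v

theorem ev_EW {N : ℕ} {C : Set (K → List A)} (hC : C ⊆ Bd K A N) {ks : List K} (hks : ks.Nodup)
    (hks' : ∀ k, k ∈ ks) (c : K → List A) : ev (gM hC) (EW ks c) = TT (eV hC c) := by
  rw [EW, cw, ev_foldl hC _ _ (eV hC fun _ => []) (ev_wvar _ _), foldl_XL,
    foldl_bot_nil hks hks']

theorem ev_TW {N : ℕ} {C : Set (K → List A)} (hC : C ⊆ Bd K A N) {ks : List K} (hks : ks.Nodup)
    (hks' : ∀ k, k ∈ ks) (c c' : K → List A) :
    ev (gM hC) (TW ks c c') = TT (eV hC c' + eV hC c) := by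
  rw [TW, ev_append, ev_inv, ev_EW hC hks hks', ev_EW hC hks hks', TT_inv, TT_mul]

end Model

theorem model {K A : Type} [Fintype K] [Fintype A] {ks : List K} (hks : ks.Nodup)
    (hks' : ∀ k, k ∈ ks) {rs : List ((K → List A) × (K → List A))} {c c' : K → List A}
    (C : Set (K → List A)) (hC : C.Finite) (hrs : ∀ r ∈ rs, ∀ α, app r.1 α ∈ C ↔ app r.2 α ∈ C)
    (hc : c ∈ C) (hc' : c' ∉ C) :
    ∃ (X : Type) (_ : Finite X) (g : Option (K × A) → Perm X) (M : Subgroup (Perm X)),
      (∀ a ∈ M, ∀ b ∈ M, a * b = b * a) ∧ g none ∈ M ∧ (∀ γ, ∀ m ∈ M, g γ * m * (g γ)⁻¹ ∈ M) ∧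
      (∀ γ, ∃ k, g γ ^ 2 ^ k = 1) ∧ (∀ R ∈ Rels ks rs, ev g R = 1) ∧
      ev g (TW ks c c') ∈ M ∧ ev g (TW ks c c') ≠ 1 := by
  classical
  obtain ⟨N, hN⟩ : ∃ N, C ⊆ Bd K A N := by
    obtain ⟨N, hN⟩ := (hC.image fun α => Finset.univ.sup fun k => (α k).length).bddAbove
    refine ⟨N, fun α hα k => ?_⟩
    exact (Finset.le_sup (f := fun k => (α k).length) (Finset.mem_univ k)).trans
      (hN ⟨α, hα, rfl⟩)
  refine ⟨VV K A N, VV_finite N, gM hN, MT K A N, ?_, ⟨_, rfl⟩, ?_, ?_, ?_, ?_, ?_⟩
  · rintro _ ⟨v, rfl⟩ _ ⟨w, rfl⟩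
    rw [TT_mul, TT_mul, add_comm]
  · rintro (_ | l) _ ⟨v, rfl⟩
    · exact (MT K A N).mul_mem ((MT K A N).mul_mem ⟨_, rfl⟩ ⟨_, rfl⟩)
        ((MT K A N).inv_mem ⟨_, rfl⟩)
    · exact ⟨_, gL_conj l v⟩
  · rintro (_ | l)
    · refine ⟨1, ?_⟩
      rw [pow_one, pow_two]
      show TT _ * TT _ = 1
      rw [TT_mul, VV_two, TT_zero]
    · exact ⟨N + 1, gL_pow l⟩
  · intro R hR
    unfold Rels at hR
    rw [List.mem_append, List.mem_append] at hR
    rcases hR with (hR | hR) | hR
    · rw [List.mem_singleton] at hR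
      rw [hR, ev_append, ev_wvar]
      show TT _ * TT _ = 1
      rw [TT_mul, VV_two, TT_zero]
    · obtain ⟨l, hl, rfl⟩ := List.mem_map.1 hR
      have hne : l.1.1 ≠ l.2.1 := by
        have := (List.mem_filter.1 hl).2
        simpa using this
      rw [ev_comm, ev_wvar, ev_wvar, commutatorElement_eq_one_iff_mul_comm]
      exact gL_commute hne
    · obtain ⟨r, hr, rfl⟩ := List.mem_map.1 hR
      have he : eV hN r.1 = eV hN r.2 := by
        apply Subtype.ext
        funext α
        simp only [eV, hrs r hr α]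
      rw [ev_TW hN hks hks', he, VV_two, TT_zero]
  · exact ⟨_, ev_TW hN hks hks' c c'⟩
  · intro h
    rw [ev_TW hN hks hks'] at h
    have h1 := congrArg (fun σ : Perm (VV K A N) => (σ 0).1 (fun _ => [])) h
    have h2 : ((TT (eV hN c' + eV hN c) 0).1 fun _ => []) = (1 : ZMod 2) := by
      rw [TT_apply, zero_add]
      show (eV hN c').1 (fun _ => []) + (eV hN c).1 (fun _ => []) = 1
      have e1 : ∀ u : K → List A, app u (fun _ => []) = u := by
        intro u; funext k; simp [app]
      simp only [eV, e1, if_pos hc, if_neg hc', zero_add]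
    have h3 : (((1 : Perm (VV K A N)) 0).1 fun _ => []) = (0 : ZMod 2) := rfl
    have h4 : (1 : ZMod 2) = 0 := by rw [← h2, ← h3]; exact h1
    exact one_ne_zero h4

end Pool.Agent.Kuz
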