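import Pool.Agent.Lib_MP_8720f8_lc.Defs

/-!
# Sidon positions (for MP_8720f8_lc)
-/

namespace Pool.Agent.Kuz

theorem two_pow_add_aux {a b c d : ℕ} (hab : b ≤ a) (hcd : d ≤ c)
    (h : 2 ^ a + 2 ^ b = 2 ^ c + 2 ^ d) : a = c ∧ b = d := by
  have key : ∀ a b c d : ℕ, b ≤ a → d ≤ c → 2 ^ a + 2 ^ b = 2 ^ c + 2 ^ d → a ≤ c := by
    intro a b c d _ hcd h
    by_contra hlt
    have h1 : 2 ^ (c + 1) ≤ 2 ^ a := Nat.pow_le_pow_right (by norm_num) (by omega)
    have h2 : 2 ^ d ≤ 2 ^ c := Nat.pow_le_pow_right (by norm_num) hcd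
    have h3 : 0 < 2 ^ b := by positivity
    rw [pow_succ] at h1
    omega
  have hac : a = c := le_antisymm (key a b c d hab hcd h) (key c d a b hcd hab h.symm)
  subst hac
  exact ⟨rfl, Nat.pow_right_injective le_rfl (by simpa using h)⟩

theorem two_pow_add {a b c d : ℕ} (h : 2 ^ a + 2 ^ b = 2 ^ c + 2 ^ d) :
    (a = c ∧ b = d) ∨ (a = d ∧ b = c) := by
  rcases le_total b a with hab | hab <;> rcases le_total d c with hcd | hcd
  · exact .inl (two_pow_add_aux hab hcd h)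
  · exact .inr (two_pow_add_aux hab hcd (by omega))
  · obtain ⟨h1, h2⟩ := two_pow_add_aux hab hcd (by omega)
    exact .inr ⟨h2, h1⟩
  · obtain ⟨h1, h2⟩ := two_pow_add_aux hab hcd (by omega : 2 ^ b + 2 ^ a = 2 ^ d + 2 ^ c)
    exact .inl ⟨h2, h1⟩

/-- positions with the Sidon property -/
theorem exists_pos (I : Type) [Finite I] : ∃ (n : ℕ) (p : I → ℕ), Odd n ∧
    (∀ i, (p i : ZMod n) ≠ 0) ∧
    (∀ i j k l, i ≠ j → (p i : ZMod n) - p j = p k - p l → i = k ∧ j = l) := by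
  classical
  have := Fintype.ofFinite I
  let e := Fintype.equivFin I
  set r := Fintype.card I with hr
  have hlt : ∀ i, 2 ^ ((e i : ℕ) + 1) ≤ 2 ^ r := fun i =>
    Nat.pow_le_pow_right (by norm_num) (by have := (e i).2; omega)
  have hinj : ∀ i j, (e i : ℕ) + 1 = (e j : ℕ) + 1 → i = j := by
    intro i j h
    apply e.injective
    ext
    omega
  refine ⟨2 ^ (r + 2) + 1, fun i => 2 ^ ((e i : ℕ) + 1), ?_, ?_, ?_⟩
  · exact Even.add_one ⟨2 ^ (r + 1), by ring⟩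
  · intro i h
    rw [ZMod.natCast_eq_zero_iff] at h
    have h1 : 2 ^ (r + 2) + 1 ≤ 2 ^ ((e i : ℕ) + 1) := Nat.le_of_dvd (by positivity) h
    have h2 := hlt i
    have h3 : 2 ^ (r + 2) = 4 * 2 ^ r := by ring
    omega
  · intro i j k l hij h
    have h0 : ((2 ^ ((e i : ℕ) + 1) + 2 ^ ((e l : ℕ) + 1) : ℕ) : ZMod (2 ^ (r + 2) + 1)) =
        ((2 ^ ((e k : ℕ) + 1) + 2 ^ ((e j : ℕ) + 1) : ℕ) : ZMod (2 ^ (r + 2) + 1)) := by
      rw [Nat.cast_add, Nat.cast_add]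
      linear_combination h
    rw [ZMod.natCast_eq_natCast_iff'] at h0
    have h3 : 2 ^ (r + 2) = 4 * 2 ^ r := by ring
    rw [Nat.mod_eq_of_lt, Nat.mod_eq_of_lt] at h0
    · rcases two_pow_add h0 with ⟨h4, h5⟩ | ⟨h4, h5⟩
      · exact ⟨hinj _ _ h4, (hinj _ _ h5).symm⟩
      · exact absurd (hinj _ _ h4) hij
    · have := hlt k
      have := hlt j
      have : 0 < 2 ^ r := by positivity
      omega
    · have := hlt i
      have := hlt l
      have : 0 < 2 ^ r := by positivity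
      omega

end Pool.Agent.Kuz
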