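import Pool.Agent.Lib_MP_8720f8_lc.Defs

/-!
# The rewriting system of a machine (P5 of MP_8720f8_lc)
-/

namespace Pool.Agent.Kuz

open Relation Function

section
variable {Q κ Γ : Type} [DecidableEq κ]

/-- one step of the machine with history -/
def hstep (M : Mach Q κ Γ) (c c' : (Q × (κ → List Γ)) × List (Q × Option Γ)) : Prop :=
  ∃ k, M.stk c.1.1 = some k ∧
    c' = ((M.nxt c.1.1 (c.1.2 k).head?,
      update c.1.2 k (M.wr c.1.1 (c.1.2 k).head? ++ (c.1.2 k).tail)),
      (c.1.1, (c.1.2 k).head?) :: c.2)

theorem hstep_of_step {M : Mach Q κ Γ} {c c' : Q × (κ → List Γ)} (h : c' ∈ M.step c)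
    (H : List (Q × Option Γ)) : ∃ H', hstep M (c, H) (c', H') := by
  obtain ⟨q, S⟩ := c
  cases hk : M.stk q with
  | none => simp [Mach.step, hk] at h
  | some k =>
    simp only [Mach.step, hk, Option.map_some, Option.mem_def, Option.some.injEq] at h
    exact ⟨(q, (S k).head?) :: H, k, hk, by rw [← h]⟩

theorem hstep_det {M : Mach Q κ Γ} {c c₁ c₂ : (Q × (κ → List Γ)) × List (Q × Option Γ)}
    (h₁ : hstep M c c₁) (h₂ : hstep M c c₂) : c₁ = c₂ := by
  obtain ⟨k, hk, rfl⟩ := h₁
  obtain ⟨k', hk', rfl⟩ := h₂
  have : k = k' := by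
    have := hk.symm.trans hk'
    exact Option.some.inj this
  subst this
  rfl

/-- if the run halts, then only finitely many configurations are reachable -/
theorem finite_reach {X : Type} {r : X → X → Prop} (hr : ∀ a b c, r a b → r a c → b = c)
    {a b : X} (hb : ∀ c, ¬ r b c) (h : ReflTransGen r a b) : {x | ReflTransGen r a x}.Finite := by
  induction h using ReflTransGen.head_induction_on with
  | refl =>
    refine (Set.finite_singleton b).subset fun x hx => ?_
    rcases ReflTransGen.cases_head hx with h | ⟨c, hc, _⟩
    · exact h.symm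
    · exact absurd hc (hb c)
  | @head a' c' hac _ ih =>
    refine ((Set.finite_singleton a').union ih).subset fun x hx => ?_
    rcases ReflTransGen.cases_head hx with h | ⟨c, hc, hx'⟩
    · exact Or.inl h.symm
    · have := hr _ _ _ hc hac
      subst this
      exact Or.inr hx'

/-- two terminal configurations reachable from the same configuration are equal -/
theorem term_unique {X : Type} {r : X → X → Prop} (hr : ∀ a b c, r a b → r a c → b = c)
    {a b c : X} (hb : ∀ x, ¬ r b x) (hc : ∀ x, ¬ r c x) (h : ReflTransGen r a b)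
    (h' : ReflTransGen r a c) : b = c := by
  induction h using ReflTransGen.head_induction_on with
  | refl =>
    rcases ReflTransGen.cases_head h' with h | ⟨d, hd, _⟩
    · exact h
    · exact absurd hd (hb d)
  | @head a' c' hac _ ih =>
    rcases ReflTransGen.cases_head h' with h | ⟨d, hd, hx'⟩
    · subst h
      exact absurd hac (hc _)
    · have := hr _ _ _ hd hac
      subst this
      exact ih hx'

theorem runs_hist {M : Mach Q κ Γ} {c c' : Q × (κ → List Γ)} (h : M.Runs c c') :
    ∃ H, ReflTransGen (hstep M) (c, []) (c', H) := by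
  induction h with
  | refl => exact ⟨[], ReflTransGen.refl⟩
  | tail _ hbc ih =>
    obtain ⟨H, hH⟩ := ih
    obtain ⟨H', hH'⟩ := hstep_of_step hbc H
    exact ⟨H', hH.tail hH'⟩

/-- letters of the work stacks -/
def wl (Q : Type) {Γ : Type} (a : Option Γ) : Sy Q Γ := Sum.inr (Sum.inr a)

/-- history letters -/
def hl {Q Γ : Type} (h : Q × Option Γ) : Sy Q Γ := Sum.inr (Sum.inl h)

theorem enc_none (q : Q) (S : κ → List Γ) (H : List (Q × Option Γ)) :
    enc q S H none = Sum.inl q :: H.map hl := rfl

theorem enc_some (q : Q) (S : κ → List Γ) (H : List (Q × Option Γ)) (k : κ) :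
    enc q S H (some k) = (S k).map (fun a => wl Q (some a)) ++ [wl Q none] := rfl

theorem hl_injective : Function.Injective (hl : Q × Option Γ → Sy Q Γ) := by
  intro a b h
  simpa [hl] using h

/-- the content of a work stack below its top -/
theorem enc_top (S : List Γ) : ∃ α : List (Sy Q Γ),
    S.map (fun a => wl Q (some a)) ++ [wl Q none] = wl Q S.head? :: α ∧
    ∀ w : List Γ, (w ++ S.tail).map (fun a => wl Q (some a)) ++ [wl Q none] =
      (w.map (fun a => wl Q (some a)) ++ match S.head? with
        | none => [wl Q none]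
        | some _ => []) ++ α := by
  cases S with
  | nil => exact ⟨[], by simp, fun w => by simp⟩
  | cons a t => exact ⟨t.map (fun a => wl Q (some a)) ++ [wl Q none], by simp, fun w => by simp⟩

theorem step_eq {M : Mach Q κ Γ} {q : Q} {k : κ} (S : κ → List Γ) (H : List (Q × Option Γ)) :
    ∃ α, enc q S H = app (stepRule M q k (S k).head?).1 α ∧
      enc (M.nxt q (S k).head?) (update S k (M.wr q (S k).head? ++ (S k).tail))
        ((q, (S k).head?) :: H) = app (stepRule M q k (S k).head?).2 α := by
  obtain ⟨β, hβ, hβ'⟩ := enc_top (Q := Q) (S k)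
  refine ⟨fun o => match o with
    | none => H.map hl
    | some j => if j = k then β else enc q S H (some j), ?_, ?_⟩
  · funext o
    cases o with
    | none => rfl
    | some j =>
      by_cases hj : j = k
      · subst hj
        simp only [enc_some, app, stepRule, fam, if_true]
        exact hβ
      · simp [app, stepRule, fam, hj]
  · funext o
    cases o with
    | none => rfl
    | some j =>
      by_cases hj : j = k
      · subst hj
        simp only [enc_some, app, stepRule, fam, if_true, update_self]
        exact hβ' _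
      · simp [app, stepRule, fam, hj, enc_some]

variable [Fintype Q] [Fintype κ] [Fintype Γ]

theorem stepRule_mem {M : Mach Q κ Γ} {acc q : Q} {k : κ} (hk : M.stk q = some k)
    (o : Option Γ) : stepRule M q k o ∈ mrules M acc := by
  classical
  unfold mrules
  refine List.mem_append_left _ (List.mem_append_left _ ?_)
  refine List.mem_map.2 ⟨(q, k, o), ?_, rfl⟩
  rw [List.mem_filter]
  exact ⟨Finset.mem_toList.2 (Finset.mem_univ _), by simpa using hk⟩

theorem eraseH_mem (M : Mach Q κ Γ) (acc : Q) (k : κ) (h : Q × Option Γ) :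
    eraseH acc k h ∈ mrules M acc := by
  classical
  unfold mrules
  refine List.mem_append_left _ (List.mem_append_right _ ?_)
  exact List.mem_map.2 ⟨(k, h), Finset.mem_toList.2 (Finset.mem_univ _), rfl⟩

theorem eraseS_mem (M : Mach Q κ Γ) (acc : Q) (k : κ) (a : Γ) :
    eraseS acc k a ∈ mrules M acc := by
  classical
  unfold mrules
  refine List.mem_append_right _ ?_
  exact List.mem_map.2 ⟨(k, a), Finset.mem_toList.2 (Finset.mem_univ _), rfl⟩

theorem mem_mrules {M : Mach Q κ Γ} {acc : Q} {r} (hr : r ∈ mrules M acc) :
    (∃ q k o, M.stk q = some k ∧ r = stepRule M q k o) ∨ (∃ k h, r = eraseH acc k h) ∨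
      ∃ k a, r = eraseS acc k a := by
  classical
  unfold mrules at hr
  rcases List.mem_append.1 hr with hr | hr
  · rcases List.mem_append.1 hr with hr | hr
    · obtain ⟨t, ht, rfl⟩ := List.mem_map.1 hr
      rw [List.mem_filter] at ht
      exact Or.inl ⟨t.1, t.2.1, t.2.2, by simpa using ht.2, rfl⟩
    · obtain ⟨t, _, rfl⟩ := List.mem_map.1 hr
      exact Or.inr (Or.inl ⟨t.1, t.2, rfl⟩)
  · obtain ⟨t, _, rfl⟩ := List.mem_map.1 hr
    exact Or.inr (Or.inr ⟨t.1, t.2, rfl⟩)

theorem rw_hist {M : Mach Q κ Γ} {acc : Q} {c c' : (Q × (κ → List Γ)) × List (Q × Option Γ)}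
    (h : ReflTransGen (hstep M) c c') :
    ReflTransGen (Rw (mrules M acc)) (enc c.1.1 c.1.2 c.2) (enc c'.1.1 c'.1.2 c'.2) := by
  induction h with
  | refl => exact ReflTransGen.refl
  | @tail b c _ hbc ih =>
    refine ih.tail ?_
    obtain ⟨k, hk, rfl⟩ := hbc
    obtain ⟨α, h1, h2⟩ := step_eq (M := M) (q := b.1.1) (k := k) b.1.2 b.2
    exact ⟨_, stepRule_mem hk _, α, h1, h2⟩

theorem rw_eraseH (M : Mach Q κ Γ) (acc : Q) (k0 : κ) (S : κ → List Γ)
    (H : List (Q × Option Γ)) :
    ReflTransGen (Rw (mrules M acc)) (enc acc S H) (enc acc S []) := by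
  induction H with
  | nil => exact ReflTransGen.refl
  | cons h H ih =>
    refine ReflTransGen.head ⟨_, eraseH_mem M acc k0 h, fun o => match o with
      | none => H.map hl
      | some j => enc acc S H (some j), ?_, ?_⟩ ih
    · funext o
      cases o with
      | none => rfl
      | some j =>
        simp only [app, eraseH, fam, ite_self, List.nil_append]
        rfl
    · funext o
      cases o with
      | none => rfl
      | some j =>
        simp only [app, eraseH, fam, ite_self, List.nil_append]

theorem rw_eraseS (M : Mach Q κ Γ) (acc : Q) (n : ℕ) : ∀ S : κ → List Γ,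
    ∑ k, (S k).length = n →
    ReflTransGen (Rw (mrules M acc)) (enc acc S []) (enc acc (fun _ => []) []) := by
  induction n with
  | zero =>
    intro S hS
    have : S = fun _ => [] := by
      funext k
      have := (Finset.sum_eq_zero_iff.1 hS) k (Finset.mem_univ _)
      exact List.length_eq_zero_iff.1 this
    rw [this]
  | succ n ih =>
    intro S hS
    have : ∃ k, S k ≠ [] := by
      by_contra hcon
      push Not at hcon
      simp [hcon] at hS
    obtain ⟨k, hk⟩ := this
    obtain ⟨a, t, hat⟩ := List.exists_cons_of_ne_nil hk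
    have hlen : ∑ j, (update S k t j).length = n := by
      have h1 : ∑ j, (S j).length = (S k).length + ∑ j ∈ Finset.univ.erase k, (S j).length :=
        (Finset.add_sum_erase _ _ (Finset.mem_univ k)).symm
      have h2 : ∑ j, (update S k t j).length = (update S k t k).length +
          ∑ j ∈ Finset.univ.erase k, (update S k t j).length :=
        (Finset.add_sum_erase _ _ (Finset.mem_univ k)).symm
      have h3 : ∑ j ∈ Finset.univ.erase k, (update S k t j).length =
          ∑ j ∈ Finset.univ.erase k, (S j).length := by
        refine Finset.sum_congr rfl fun j hj => ?_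
        rw [update_of_ne (Finset.ne_of_mem_erase hj)]
      rw [h2, h3, update_self]
      rw [h1, hat, List.length_cons] at hS
      omega
    refine ReflTransGen.head ⟨_, eraseS_mem M acc k a, fun o => match o with
      | none => []
      | some j => enc acc (update S k t) [] (some j), ?_, ?_⟩ (ih _ hlen)
    · funext o
      cases o with
      | none => rfl
      | some j =>
        by_cases hj : j = k
        · subst hj
          simp only [app, eraseS, fam, if_true, enc_some, update_self, hat]
          rfl
        · simp only [app, eraseS, fam, if_neg hj, enc_some, update_of_ne hj, List.nil_append]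
    · funext o
      cases o with
      | none => rfl
      | some j =>
        simp only [app, eraseS, fam, ite_self, List.nil_append]

end

section
variable {Q κ Γ : Type} [Fintype Q] [Fintype κ] [DecidableEq κ] [Fintype Γ]

set_option linter.unusedVariables false in
/-- an accepting run gives a derivation in the rewriting system -/
theorem rules_acc {M : Mach Q κ Γ} {acc : Q} (k0 : κ) (hacc : M.stk acc = none) {q0 : Q}
    {S0 S : κ → List Γ} (h : M.Runs (q0, S0) (acc, S)) :
    ReflTransGen (Rw (mrules M acc)) (enc q0 S0 []) (enc acc (fun _ => []) []) := by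
  obtain ⟨H, hH⟩ := runs_hist h
  exact ((rw_hist hH).trans (rw_eraseH M acc k0 S H)).trans (rw_eraseS M acc _ S rfl)

theorem app_cancel {K A : Type} {U α β : K → List A} (h : app U α = app U β) : α = β := by
  funext k
  exact List.append_cancel_left (congrFun h k)

theorem enc_state {q q' : Q} {S' : κ → List Γ} {H' : List (Q × Option Γ)} {k : κ}
    {u v : List (Sy Q Γ)} {α : Option κ → List (Sy Q Γ)}
    (h : enc q' S' H' = app (fam (Sum.inl q :: u) k v) α) : q' = q ∧ H'.map hl = u ++ α none := by
  have h0 := congrFun h none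
  rw [enc_none] at h0
  simp only [app, fam, List.cons_append] at h0
  have h1 := List.cons.inj h0
  exact ⟨Sum.inl.inj h1.1, h1.2⟩

/-- a rejecting run gives a finite set of configurations closed under the rules -/
theorem rules_rej {M : Mach Q κ Γ} {acc : Q} (hacc : M.stk acc = none) {q0 q : Q}
    {S0 S : κ → List Γ} (hq : M.stk q = none) (hne : q ≠ acc) (h : M.Runs (q0, S0) (q, S)) :
    ∃ C : Set (Option κ → List (Sy Q Γ)), C.Finite ∧
      (∀ r ∈ mrules M acc, ∀ α, app r.1 α ∈ C ↔ app r.2 α ∈ C) ∧
      enc q0 S0 [] ∈ C ∧ enc acc (fun _ => []) [] ∉ C := by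
  obtain ⟨Hf, hHf⟩ := runs_hist h
  have hdet : ∀ a b c : (Q × (κ → List Γ)) × List (Q × Option Γ),
      hstep M a b → hstep M a c → b = c := fun a b c => hstep_det
  have hterm : ∀ (q : Q) (S : κ → List Γ) (H : List (Q × Option Γ)), M.stk q = none →
      ∀ c, ¬ hstep M ((q, S), H) c := by
    intro q S H hq c hc
    obtain ⟨k, hk, _⟩ := hc
    rw [show M.stk q = some k from hk] at hq
    exact absurd hq (by simp)
  have hnacc : ∀ S' H', ¬ ReflTransGen (hstep M) ((q0, S0), []) ((acc, S'), H') := by
    intro S' H' hR
    have := term_unique hdet (hterm q S Hf hq) (hterm acc S' H' hacc) hHf hR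
    exact hne (congrArg (fun x => x.1.1) this)
  refine ⟨(fun x : (Q × (κ → List Γ)) × List (Q × Option Γ) => enc x.1.1 x.1.2 x.2) ''
    {x | ReflTransGen (hstep M) ((q0, S0), []) x},
    (finite_reach hdet (hterm q S Hf hq) hHf).image _, ?_, ⟨_, ReflTransGen.refl, rfl⟩, ?_⟩
  · -- no configuration in the state `acc`
    have key : ∀ (u v : List (Sy Q Γ)) (k : κ) (α : Option κ → List (Sy Q Γ)),
        app (fam (Sum.inl acc :: u) k v) α ∉
          (fun x : (Q × (κ → List Γ)) × List (Q × Option Γ) => enc x.1.1 x.1.2 x.2) ''
            {x | ReflTransGen (hstep M) ((q0, S0), []) x} := by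
      rintro u v k α ⟨⟨⟨q', S'⟩, H'⟩, hx, hxe⟩
      have := (enc_state hxe).1
      subst this
      exact hnacc _ _ hx
    intro r hr α
    rcases mem_mrules hr with ⟨q1, k, o, hk, rfl⟩ | ⟨k, h', rfl⟩ | ⟨k, a, rfl⟩
    · constructor
      · rintro ⟨⟨⟨q', S'⟩, H'⟩, hx, hxe⟩
        have hxe' : enc q' S' H' = app (stepRule M q1 k o).1 α := hxe
        have hq1 := (enc_state hxe').1
        subst hq1
        have ho : (S' k).head? = o := by
          have h1 := congrFun hxe' (some k)
          obtain ⟨β, hβ, _⟩ := enc_top (Q := Q) (S' k)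
          rw [enc_some, hβ] at h1
          simp only [app, stepRule, fam, if_true, List.cons_append, List.nil_append] at h1
          have h2 := (List.cons.inj h1).1
          simpa [wl] using h2
        subst ho
        obtain ⟨α', h1, h2⟩ := step_eq (M := M) (q := q') (k := k) S' H'
        have : α' = α := app_cancel (h1.symm.trans hxe')
        subst this
        exact ⟨_, ReflTransGen.tail hx ⟨k, hk, rfl⟩, h2⟩
      · rintro ⟨⟨⟨q', S'⟩, H'⟩, hx, hxe⟩
        have hxe' : enc q' S' H' = app (stepRule M q1 k o).2 α := hxe
        have hH := (enc_state hxe').2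
        have hx' : ReflTransGen (hstep M) ((q0, S0), []) ((q', S'), H') := hx
        rcases ReflTransGen.cases_tail hx' with he | ⟨⟨⟨q2, S2⟩, H2⟩, hy, k2, hk2, he⟩
        · have : H' = [] := (congrArg (fun x => x.2) he)
          rw [this] at hH
          simp at hH
        · simp only at hk2 he
          have he2 : H' = (q2, (S2 k2).head?) :: H2 := congrArg (fun x => x.2) he
          have heS : S' = update S2 k2 (M.wr q2 (S2 k2).head? ++ (S2 k2).tail) :=
            congrArg (fun x => x.1.2) he
          have heq : q' = M.nxt q2 (S2 k2).head? := congrArg (fun x => x.1.1) he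
          rw [he2] at hH
          have h3 : hl (q2, (S2 k2).head?) = (Sum.inr (Sum.inl (q1, o)) : Sy Q Γ) :=
            (List.cons.inj hH).1
          have h4 : (q2, (S2 k2).head?) = (q1, o) := hl_injective h3
          have h5 : q2 = q1 := (Prod.mk.inj h4).1
          have h6 : (S2 k2).head? = o := (Prod.mk.inj h4).2
          subst h5
          have h7 : k2 = k := by
            rw [hk2] at hk
            exact Option.some.inj hk
          subst h7
          subst h6
          obtain ⟨α', h1, h2⟩ := step_eq (M := M) (q := q2) (k := k2) S2 H2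
          rw [he2, heS, heq] at hxe'
          have : α' = α := app_cancel (h2.symm.trans hxe')
          subst this
          exact ⟨_, hy, h1⟩
    · exact iff_of_false (key _ _ _ _) (key _ _ _ _)
    · exact iff_of_false (key _ _ _ _) (key _ _ _ _)
  · rintro ⟨⟨⟨q', S'⟩, H'⟩, hx, hxe⟩
    have h0 := congrFun hxe none
    have h1 : q' = acc := Sum.inl.inj (List.cons.inj h0).1
    subst h1
    exact hnacc _ _ hx

end

end Pool.Agent.Kuz
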