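import Pool.Agent.Lib_MP_8720f8_lc.Formal

/-!
# The semantic part (for MP_8720f8_lc)

A closed subset of a wreath product.
-/

namespace Pool.Agent.Kuz

open Equiv Function
open scoped commutatorElement

section closed
variable {G H Γ : Type} [Group G] [Group H] {n : ℕ}

/-- the coordinate `0` of the base group -/
def io (δ : (ZMod n → H) →* G) (c : H) : G := δ (Pi.mulSingle 0 c)

theorem io_mul (δ : (ZMod n → H) →* G) (c d : H) : io δ (c * d) = io δ c * io δ d := by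
  rw [io, io, io, ← map_mul, ← Pi.mulSingle_mul]

theorem io_one (δ : (ZMod n → H) →* G) : io δ 1 = 1 := by simp [io]

theorem io_inv (δ : (ZMod n → H) →* G) (c : H) : io δ c⁻¹ = (io δ c)⁻¹ := by
  rw [eq_inv_iff_mul_eq_one, ← io_mul, inv_mul_cancel, io_one]

theorem io_pow (δ : (ZMod n → H) →* G) (c : H) (k : ℕ) : io δ (c ^ k) = io δ c ^ k := by
  induction k with
  | zero => simp [io_one]
  | succ k ih => rw [pow_succ, pow_succ, io_mul, ih]

/-- `io` as a homomorphism -/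
def ioHom (δ : (ZMod n → H) →* G) : H →* G where
  toFun := io δ
  map_one' := io_one δ
  map_mul' := io_mul δ

/-- elements of the base group that are trivial at `0` commute with `io c` -/
theorem io_comm {δ : (ZMod n → H) →* G} {f : ZMod n → H} (hf : f 0 = 1) (c : H) :
    io δ c * δ f = δ f * io δ c := by
  rw [io, ← map_mul, ← map_mul]
  congr 1
  funext q
  by_cases hq : q = 0
  · subst hq; simp [hf]
  · simp [Pi.mulSingle_eq_of_ne hq]

theorem conj_pow' (a b : G) (k : ℕ) : (a⁻¹ * b * a) ^ k = a⁻¹ * b ^ k * a := by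
  have := conj_pow (i := k) (a := a⁻¹) (b := b)
  simpa using this

/-- commutator of two elements of the base group -/
theorem comm_dl (δ : (ZMod n → H) →* G) (f f' : ZMod n → H) :
    ⁅δ f, δ f'⁆ = δ fun q => ⁅f q, f' q⁆ := by
  rw [← map_commutatorElement]
  rfl

theorem comm_conj' (a f f' : G) : ⁅a⁻¹ * f * a, a⁻¹ * f' * a⁆ = a⁻¹ * ⁅f, f'⁆ * a := by
  simp only [commutatorElement_def]
  group

/-- data for the closed set -/
structure WData (G H Γ : Type) [Group G] [Group H] (n : ℕ) where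
  δ : (ZMod n → H) →* G
  σ : G
  inj : Injective δ
  hσ : σ ^ n = 1
  hconj : ∀ (q : ℕ) (f : ZMod n → H), (σ ^ q)⁻¹ * δ f * σ ^ q = δ fun r => f (r + q)
  hσδ : ∀ f, δ f ≠ σ
  z : Γ
  p : Γ × Bool → ℕ
  hp0 : ∀ i, (p i : ZMod n) ≠ 0
  hp : ∀ i j k l, i ≠ j → (p i : ZMod n) - p j = p k - p l → i = k ∧ j = l
  /-- base functions -/
  hr : ZMod n → H
  h0 : hr 0 = 1
  hrn : ∀ q : ZMod n, (∀ i, q ≠ p i) → hr q ^ n = 1
  gh : Γ → H
  hgh : ∀ γ, ⁅hr (p (γ, false)) ^ n, hr (p (γ, true)) ^ n⁆ = gh γ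
  hne : hr (p (z, true)) ≠ 1
  M : Subgroup H
  hM : ∀ a ∈ M, ∀ b ∈ M, a * b = b * a
  hz : gh z ∈ M
  hMg : ∀ γ, ∀ m ∈ M, gh γ * m * (gh γ)⁻¹ ∈ M
  hMg' : ∀ γ, ∀ m ∈ M, (gh γ)⁻¹ * m * gh γ ∈ M

namespace WData

variable (D : WData G H Γ n)

/-- the group generated by the payload at the coordinate `0` -/
def K : Subgroup H := Subgroup.closure (Set.range D.gh)

/-- the element `b` -/
def b : G := D.δ D.hr

/-- the closed set -/
def S : Set G := {g | g = D.b ∨ (∃ c ∈ D.K, g = (io D.δ c)⁻¹ * D.σ * io D.δ c) ∨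
  ∃ m ∈ D.M, g = io D.δ m}

theorem K_conj {c : H} (hc : c ∈ D.K) :
    (∀ m ∈ D.M, c * m * c⁻¹ ∈ D.M) ∧ (∀ m ∈ D.M, c⁻¹ * m * c ∈ D.M) := by
  induction hc using Subgroup.closure_induction with
  | mem x hx => obtain ⟨γ, rfl⟩ := hx; exact ⟨D.hMg γ, D.hMg' γ⟩
  | one => simp
  | mul x y _ _ h1 h2 =>
    refine ⟨fun m hm => ?_, fun m hm => ?_⟩
    · have := h1.1 _ (h2.1 m hm)
      convert this using 1
      group
    · have := h2.2 _ (h1.2 m hm)
      convert this using 1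
      group
  | inv x _ h => exact ⟨by simpa using h.2, by simpa using h.1⟩

theorem ne_of_ne {i j : Γ × Bool} (h : i ≠ j) : (D.p i : ZMod n) ≠ D.p j := by
  intro e
  have := D.hp i j i i h (by rw [e])
  exact h this.2.symm

theorem b_comm (c : H) : io D.δ c * D.b = D.b * io D.δ c := io_comm D.h0 c

theorem bn : D.b ^ n = D.δ fun q => D.hr q ^ n := by
  rw [b, ← map_pow]
  rfl

/-- `Xf` is trivial if `s` and `b` commute -/
theorem Xf_of_comm {s b : G} (h : s * b = b * s) (γ : Γ) : Xf G n D.p γ s b = 1 := by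
  have h1 : ∀ q : ℕ, s⁻¹ ^ q * b ^ n * s ^ q = b ^ n := by
    intro q
    have hc : Commute (s ^ q) (b ^ n) := (show Commute s b from h).pow_pow q n
    rw [inv_pow, mul_assoc, ← hc.eq, inv_mul_cancel_left]
  rw [Xf, h1, h1, commutatorElement_self]

theorem Xf_of_pow {s b : G} (h : b ^ n = 1) (γ : Γ) : Xf G n D.p γ s b = 1 := by
  rw [Xf, h]
  simp

theorem ee_conj (c : H) (f : ZMod n → H) (q : ℕ) :
    ((io D.δ c)⁻¹ * D.σ * io D.δ c)⁻¹ ^ q * ((io D.δ c)⁻¹ * D.δ f * io D.δ c) *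
      ((io D.δ c)⁻¹ * D.σ * io D.δ c) ^ q =
    (io D.δ c)⁻¹ * (D.δ fun r => f (r + q)) * io D.δ c := by
  rw [inv_pow, conj_pow', ← D.hconj q f]
  group

theorem payload_main (c : H) (γ : Γ) :
    Xf G n D.p γ ((io D.δ c)⁻¹ * D.σ * io D.δ c) D.b = io D.δ (c⁻¹ * D.gh γ * c) := by
  have h1 : D.b ^ n = (io D.δ c)⁻¹ * (D.δ fun q => D.hr q ^ n) * io D.δ c := by
    have : io D.δ c * D.b ^ n = D.b ^ n * io D.δ c :=
      (show Commute _ _ from D.b_comm c).pow_right n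
    rw [← D.bn, mul_assoc, ← this]
    group
  rw [Xf, h1, ee_conj, ee_conj, comm_conj', comm_dl, io_mul, io_mul, io_inv]
  congr 2
  rw [io]
  congr 1
  funext r
  by_cases hr : r = 0
  · subst hr
    simp [D.hgh γ]
  · rw [Pi.mulSingle_eq_of_ne hr]
    by_cases h2 : ∀ i, r + D.p (γ, false) ≠ D.p i
    · rw [D.hrn _ h2, commutatorElement_one_left]
    · by_cases h3 : ∀ i, r + D.p (γ, true) ≠ D.p i
      · rw [D.hrn _ h3, commutatorElement_one_right]
      · push Not at h2 h3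
        obtain ⟨k, hk⟩ := h2
        obtain ⟨l, hl⟩ := h3
        exfalso
        have := D.hp (γ, false) (γ, true) k l (by simp) (by rw [← hk, ← hl]; ring)
        rw [← this.1] at hk
        exact hr (by simpa using hk)

theorem payload {s b : G} (hs : s ∈ D.S) (hb : b ∈ D.S) : (∀ γ, Xf G n D.p γ s b = 1) ∨
    ∃ c ∈ D.K, ∀ γ, Xf G n D.p γ s b = io D.δ (c⁻¹ * D.gh γ * c) := by
  rcases hb with rfl | ⟨c, hc, rfl⟩ | ⟨m, hm, rfl⟩
  · rcases hs with rfl | ⟨c, hc, rfl⟩ | ⟨m, hm, rfl⟩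
    · exact Or.inl fun γ => D.Xf_of_comm rfl γ
    · exact Or.inr ⟨c, hc, D.payload_main c⟩
    · exact Or.inl fun γ => D.Xf_of_comm (D.b_comm m) γ
  · refine Or.inl fun γ => D.Xf_of_pow ?_ γ
    rw [conj_pow', D.hσ]
    group
  · rcases hs with rfl | ⟨c, hc, rfl⟩ | ⟨m', hm', rfl⟩
    · exact Or.inl fun γ => D.Xf_of_comm (D.b_comm m).symm γ
    · refine Or.inl fun γ => ?_
      have h1 : io D.δ m ^ n = (io D.δ c)⁻¹ * (D.δ (Pi.mulSingle 0 (c * m ^ n * c⁻¹))) *
          io D.δ c := by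
        change _ = (io D.δ c)⁻¹ * io D.δ (c * m ^ n * c⁻¹) * io D.δ c
        rw [io_mul, io_mul, io_inv, io_pow]
        group
      rw [Xf, h1, ee_conj, ee_conj, comm_conj', comm_dl]
      have h2 : (D.δ fun q => ⁅(Pi.mulSingle 0 (c * m ^ n * c⁻¹) : ZMod n → H) (q + D.p (γ, false)),
          (Pi.mulSingle 0 (c * m ^ n * c⁻¹) : ZMod n → H) (q + D.p (γ, true))⁆) = 1 := by
        rw [← map_one D.δ]
        congr 1
        funext q
        by_cases h3 : q + D.p (γ, false) = 0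
        · have h4 : q + D.p (γ, true) ≠ 0 := by
            intro h4
            have : (D.p (γ, false) : ZMod n) = D.p (γ, true) := by
              rw [← h4] at h3
              exact add_left_cancel h3
            exact D.ne_of_ne (by simp) this
          rw [Pi.mulSingle_eq_of_ne h4, commutatorElement_one_right]
          rfl
        · rw [Pi.mulSingle_eq_of_ne h3, commutatorElement_one_left]
          rfl
      rw [h2]
      group
    · refine Or.inl fun γ => D.Xf_of_comm ?_ γ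
      rw [← io_mul, ← io_mul, D.hM _ hm' _ hm]

theorem ev_payload {x : Γ → G} {c : H} (hx : ∀ γ, x γ = io D.δ (c⁻¹ * D.gh γ * c)) (w : Wd Γ) :
    ev x w = io D.δ (c⁻¹ * ev D.gh w * c) := by
  have h1 : x = fun γ => ioHom D.δ (c⁻¹ * D.gh γ * c) := funext hx
  rw [h1, ← map_ev, ev_conj]
  rfl

theorem closed_conj {y : G} (hy : y ∈ D.S) {k : H} (hk : k ∈ D.K) :
    (io D.δ k)⁻¹ * y * io D.δ k ∈ D.S := by
  rcases hy with rfl | ⟨c, hc, rfl⟩ | ⟨m, hm, rfl⟩
  · left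
    rw [mul_assoc, ← D.b_comm k]
    group
  · right; left
    refine ⟨c * k, mul_mem hc hk, ?_⟩
    rw [io_mul]
    group
  · right; right
    refine ⟨k⁻¹ * m * k, (D.K_conj hk).2 m hm, ?_⟩
    rw [io_mul, io_mul, io_inv]

theorem comm_vn {v : G} (hv : v ∈ D.S) {m : H} (hm : m ∈ D.M) : ⁅io D.δ m, v ^ n⁆ = 1 := by
  rw [commutatorElement_eq_one_iff_mul_comm]
  rcases hv with rfl | ⟨c, hc, rfl⟩ | ⟨m', hm', rfl⟩
  · exact (show Commute _ _ from D.b_comm m).pow_right n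
  · rw [conj_pow', D.hσ]
    group
  · rw [← io_pow, ← io_mul, ← io_mul, D.hM _ hm _ (pow_mem hm' n)]

theorem closed {gs : List Γ} {Rs : List (Wd Γ)} (hR : ∀ R ∈ Rs, ev D.gh R = 1) :
    ∀ B ∈ Bw gs D.z n D.p Rs, ∀ x : ℕ → G, (∀ i, x i ∈ D.S) → ev x B ∈ D.S := by
  intro B hB x hx
  have hg : ∀ γ, D.gh γ ∈ D.K := fun γ => Subgroup.subset_closure ⟨γ, rfl⟩
  have h1S : (1 : G) ∈ D.S := Or.inr (Or.inr ⟨1, one_mem _, (io_one _).symm⟩)
  have hpay := D.payload (hx 1) (hx 2)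
  simp only [Bw, List.mem_append, List.mem_map, List.mem_cons, List.not_mem_nil, or_false] at hB
  rcases hB with ((rfl | rfl) | ⟨γ, _, rfl⟩) | ⟨R, hRR, rfl⟩
  · rw [ev_XW]
    rcases hpay with h | ⟨c, hc, h⟩
    · rw [h]; exact h1S
    · rw [h]
      exact Or.inr (Or.inr ⟨_, (D.K_conj hc).2 _ D.hz, rfl⟩)
  · rw [ev_append, ev_wvar, ev_comm, ev_pow, ev_wvar, ev_XW]
    rcases hpay with h | ⟨c, hc, h⟩
    · rw [h, commutatorElement_one_left, mul_one]; exact hx 0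
    · rw [h, D.comm_vn (hx 3) ((D.K_conj hc).2 _ D.hz), mul_one]; exact hx 0
  · rw [ev_append, ev_append, ev_inv, ev_wvar, ev_XW]
    rcases hpay with h | ⟨c, hc, h⟩
    · rw [h]; simpa using hx 0
    · rw [h]
      exact D.closed_conj (hx 0) (mul_mem (mul_mem (inv_mem hc) (hg γ)) hc)
  · rw [ev_append, ev_wvar, ev_subst]
    have e : (fun a => ev x (XW n D.p a)) = fun a => Xf G n D.p a (x 1) (x 2) :=
      funext fun a => ev_XW _ _ _ _
    rw [e]
    rcases hpay with h | ⟨c, hc, h⟩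
    · rw [show (fun a => Xf G n D.p a (x 1) (x 2)) = fun _ => 1 from funext h, ev_one_fun, mul_one]
      exact hx 0
    · rw [D.ev_payload h, hR R hRR, mul_one, inv_mul_cancel, io_one, mul_one]
      exact hx 0

theorem not_inC {gs : List Γ} {Rs : List (Wd Γ)} (hR : ∀ R ∈ Rs, ev D.gh R = 1) {T : Wd Γ}
    (hT' : ev D.gh T ≠ 1) :
    ¬ InC G (Bw gs D.z n D.p Rs) (Aw n D.p T) := by
  intro h
  have hbS : D.b ∈ D.S := Or.inl rfl
  have hσS : D.σ ∈ D.S := Or.inr (Or.inl ⟨1, one_mem _, by simp [io_one]⟩)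
  have h1 := h.mem (D.closed hR) (fun i => if i = 1 then D.σ else D.b) (fun i => by
    by_cases hi : i = 1
    · rw [if_pos hi]; exact hσS
    · rw [if_neg hi]; exact hbS)
  rw [Aw, ev_append, ev_wvar, ev_subst] at h1
  have e : (fun a => ev (fun i => if i = 1 then D.σ else D.b) (XW n D.p a)) =
      fun a => Xf G n D.p a D.σ D.b := funext fun a => by rw [ev_XW]; simp
  rw [e] at h1
  have hpay : ∀ γ, Xf G n D.p γ D.σ D.b = io D.δ ((1 : H)⁻¹ * D.gh γ * 1) := by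
    intro γ
    have := D.payload_main 1 γ
    rwa [io_one, inv_one, one_mul, mul_one] at this
  rw [D.ev_payload hpay] at h1
  simp only [inv_one, one_mul, mul_one, zero_ne_one, if_false] at h1
  rcases h1 with h1 | ⟨c, hc, h1⟩ | ⟨m, hm, h1⟩
  · have h2 : io D.δ (ev D.gh T) = 1 := by simpa using h1
    have h3 := D.inj (a₁ := Pi.mulSingle 0 (ev D.gh T)) (a₂ := 1) (by rw [map_one]; exact h2)
    have h4 := congrFun h3 0
    simp only [Pi.mulSingle_eq_same, Pi.one_apply] at h4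
    exact hT' h4
  · refine D.hσδ (Pi.mulSingle 0 c * (D.hr * Pi.mulSingle 0 (ev D.gh T)) *
      (Pi.mulSingle 0 c)⁻¹) ?_
    have h2 : D.δ D.hr * D.δ (Pi.mulSingle 0 (ev D.gh T)) =
      (D.δ (Pi.mulSingle 0 c))⁻¹ * D.σ * D.δ (Pi.mulSingle 0 c) := h1
    rw [map_mul, map_mul, map_mul, map_inv, h2]
    group
  · have h2 : D.b = io D.δ (m * (ev D.gh T)⁻¹) := by
      rw [io_mul, io_inv, ← h1]
      group
    have h3 := D.inj (a₁ := D.hr) (a₂ := Pi.mulSingle 0 (m * (ev D.gh T)⁻¹)) h2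
    have h4 := congrFun h3 (D.p (D.z, true))
    rw [Pi.mulSingle_eq_of_ne (D.hp0 _)] at h4
    exact D.hne h4

end WData

end closed

end Pool.Agent.Kuz
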