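import Mathlib

/-!
# Words and expressibility (for MP_8720f8_lc)
-/

namespace Pool.Agent.Kuz

open scoped commutatorElement

/-- words over an alphabet `α` and its formal inverses -/
abbrev Wd (α : Type) := List (α × Bool)

/-- value of a word in a group, for an assignment `x` of the letters -/
def ev {α G : Type} [Group G] (x : α → G) (w : Wd α) : G :=
  (w.map fun p => if p.2 then x p.1 else (x p.1)⁻¹).prod

/-- formal inverse of a word -/
def winv {α : Type} (w : Wd α) : Wd α := (w.map fun p => (p.1, !p.2)).reverse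

/-- substitution of words for the letters of a word -/
def wsubst {α β : Type} (U : α → Wd β) (w : Wd α) : Wd β :=
  w.flatMap fun p => if p.2 then U p.1 else winv (U p.1)

/-- a letter as a word -/
def wvar {α : Type} (a : α) : Wd α := [(a, true)]

def wcomm {α : Type} (u v : Wd α) : Wd α := u ++ v ++ winv u ++ winv v

def wpow {α : Type} (u : Wd α) (k : ℕ) : Wd α := (List.replicate k u).flatten

section
variable {α β G : Type} [Group G]

@[simp] theorem ev_nil (x : α → G) : ev x [] = 1 := rfl

@[simp] theorem ev_append (x : α → G) (u v : Wd α) : ev x (u ++ v) = ev x u * ev x v := by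
  simp [ev]

theorem ev_cons (x : α → G) (p : α × Bool) (v : Wd α) :
    ev x (p :: v) = (if p.2 then x p.1 else (x p.1)⁻¹) * ev x v := by
  simp [ev]

@[simp] theorem ev_inv (x : α → G) (u : Wd α) : ev x (winv u) = (ev x u)⁻¹ := by
  induction u with
  | nil => simp [winv]
  | cons p u ih =>
    have h : winv (p :: u) = winv u ++ [(p.1, !p.2)] := by simp [winv]
    rw [h, ev_append, ih, ev_cons x p u, mul_inv_rev]
    congr 1
    rcases p with ⟨a, b⟩
    cases b <;> simp [ev]

@[simp] theorem ev_wvar (x : α → G) (a : α) : ev x (wvar a) = x a := by simp [ev, wvar]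

@[simp] theorem ev_comm (x : α → G) (u v : Wd α) :
    ev x (wcomm u v) = ⁅ev x u, ev x v⁆ := by
  simp [wcomm, commutatorElement_def, mul_assoc]

@[simp] theorem ev_pow (x : α → G) (u : Wd α) (k : ℕ) : ev x (wpow u k) = ev x u ^ k := by
  induction k with
  | zero => simp [wpow]
  | succ k ih =>
    have h : wpow u (k + 1) = u ++ wpow u k := by simp [wpow, List.replicate_succ]
    rw [h, ev_append, ih, pow_succ']

theorem ev_subst (x : β → G) (U : α → Wd β) (w : Wd α) :
    ev x (wsubst U w) = ev (fun a => ev x (U a)) w := by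
  induction w with
  | nil => simp [wsubst]
  | cons p w ih =>
    have h : wsubst U (p :: w) = (if p.2 then U p.1 else winv (U p.1)) ++ wsubst U w := by
      simp [wsubst]
    rw [h, ev_append, ih, ev_cons]
    congr 1
    split_ifs <;> simp

theorem map_ev {H : Type} [Group H] (φ : G →* H) (x : α → G) (w : Wd α) :
    φ (ev x w) = ev (fun a => φ (x a)) w := by
  induction w with
  | nil => simp
  | cons p w ih =>
    rw [ev_cons, ev_cons, map_mul, ih]
    congr 1
    split_ifs <;> simp

theorem ev_conj (c : G) (x : α → G) (w : Wd α) :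
    ev (fun a => c⁻¹ * x a * c) w = c⁻¹ * ev x w * c := by
  have := map_ev (MulAut.conj c⁻¹ : MulAut G).toMonoidHom x w
  simp only [MulEquiv.coe_toMonoidHom, MulAut.conj_apply, inv_inv] at this
  rw [this]

@[simp] theorem ev_one_fun (w : Wd α) : ev (fun _ => (1 : G)) w = 1 := by
  induction w with
  | nil => simp
  | cons p w ih => rw [ev_cons, ih]; split_ifs <;> simp

end

/-- Expressibility on the group `G`: the smallest set of words that contains the variables and the
words of the list `Bs`, and is closed under substitution and under passing to a word identically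
equal on `G`. -/
inductive InC (G : Type) [Group G] (Bs : List (Wd ℕ)) : Wd ℕ → Prop
  | var (i : ℕ) : InC G Bs [(i, true)]
  | base {B : Wd ℕ} : B ∈ Bs → InC G Bs B
  | subst {W : Wd ℕ} {U : ℕ → Wd ℕ} : InC G Bs W → (∀ i, InC G Bs (U i)) → InC G Bs (wsubst U W)
  | congr {W W' : Wd ℕ} : InC G Bs W → (∀ x : ℕ → G, ev x W = ev x W') → InC G Bs W'

/-- closed subsets give non-expressibility -/
theorem InC.mem {G : Type} [Group G] {Bs : List (Wd ℕ)} {S : Set G}
    (hS : ∀ B ∈ Bs, ∀ x : ℕ → G, (∀ i, x i ∈ S) → ev x B ∈ S) {W : Wd ℕ} (h : InC G Bs W) :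
    ∀ x : ℕ → G, (∀ i, x i ∈ S) → ev x W ∈ S := by
  induction h with
  | var i => intro x hx; simpa [ev] using hx i
  | base hB => intro x hx; exact hS _ hB x hx
  | subst _ _ ih1 ih2 =>
    intro x hx
    rw [ev_subst]
    exact ih1 _ fun i => ih2 i x hx
  | congr _ h ih => intro x hx; rw [← h x]; exact ih x hx

/-- term functions of the clone -/
def TF (G : Type) [Group G] (Bs : List (Wd ℕ)) (F : (ℕ → G) → G) : Prop :=
  ∃ W, InC G Bs W ∧ ∀ x, ev x W = F x

section
variable {G : Type} [Group G] {Bs : List (Wd ℕ)}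

theorem TF.var (i : ℕ) : TF G Bs fun x => x i :=
  ⟨[(i, true)], .var i, fun x => by simp [ev]⟩

theorem TF.base {B : Wd ℕ} (h : B ∈ Bs) : TF G Bs fun x => ev x B := ⟨B, .base h, fun _ => rfl⟩

theorem TF.subst {F : (ℕ → G) → G} {U : ℕ → (ℕ → G) → G} (hF : TF G Bs F)
    (hU : ∀ i, TF G Bs (U i)) : TF G Bs fun x => F fun i => U i x := by
  obtain ⟨W, hW, hWF⟩ := hF
  choose V hV hVU using hU
  refine ⟨wsubst V W, .subst hW hV, fun x => ?_⟩
  rw [ev_subst, hWF]
  congr 1
  funext i
  exact hVU i x

theorem TF.inC {A : Wd ℕ} (h : TF G Bs fun x => ev x A) : InC G Bs A := by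
  obtain ⟨W, hW, h⟩ := h
  exact .congr hW h

theorem TF.congr {F F' : (ℕ → G) → G} (h : TF G Bs F) (e : ∀ x, F x = F' x) : TF G Bs F' := by
  obtain ⟨W, hW, h⟩ := h
  exact ⟨W, hW, fun x => (h x).trans (e x)⟩

end

end Pool.Agent.Kuz
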