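import Pool.Agent.Lib_MP_8720f8_lc.Sem

/-!
# The wreath product (for MP_8720f8_lc)
-/

namespace Pool.Agent.Kuz

open Equiv Function
open scoped commutatorElement

section wreath
variable {Y : Type} {n : ℕ}

/-- the base group -/
def dl (n : ℕ) (Y : Type) : (ZMod n → Perm Y) →* Perm (ZMod n × Y) where
  toFun f := Equiv.prodShear (Equiv.refl _) f
  map_one' := by ext x <;> simp [Equiv.prodShear]
  map_mul' f g := by ext x <;> simp [Equiv.prodShear]

theorem dl_apply (f : ZMod n → Perm Y) (q : ZMod n) (y : Y) : dl n Y f (q, y) = (q, f q y) := rfl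

/-- the shift -/
def sg (n : ℕ) (Y : Type) : Perm (ZMod n × Y) :=
  Equiv.prodShear (Equiv.addRight (1 : ZMod n)) fun _ => Equiv.refl _

theorem sg_apply (q : ZMod n) (y : Y) : sg n Y (q, y) = (q + 1, y) := rfl

theorem sg_pow_apply (k : ℕ) (q : ZMod n) (y : Y) : (sg n Y ^ k) (q, y) = (q + k, y) := by
  induction k with
  | zero => simp
  | succ k ih => rw [pow_succ', Perm.mul_apply, ih, sg_apply]; push_cast; rw [add_assoc]

theorem dl_injective (n : ℕ) (Y : Type) : Injective (dl n Y) := by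
  intro f g h
  funext q
  ext y
  have := congrArg (fun e : Perm (ZMod n × Y) => (e (q, y)).2) h
  simpa [dl_apply] using this

theorem sg_pow (n : ℕ) (Y : Type) : sg n Y ^ n = 1 := by
  ext x
  · rcases x with ⟨q, y⟩; rw [sg_pow_apply]; simp
  · rcases x with ⟨q, y⟩; rw [sg_pow_apply]; simp

theorem sg_conj (q : ℕ) (f : ZMod n → Perm Y) :
    (sg n Y ^ q)⁻¹ * dl n Y f * sg n Y ^ q = dl n Y fun r => f (r + q) := by
  rw [mul_assoc, inv_mul_eq_iff_eq_mul]
  ext x
  · rcases x with ⟨r, y⟩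
    simp only [Perm.mul_apply, sg_pow_apply, dl_apply]
  · rcases x with ⟨r, y⟩
    simp only [Perm.mul_apply, sg_pow_apply, dl_apply]

theorem dl_ne_sg [Nonempty Y] (hn : n ≠ 1) (f : ZMod n → Perm Y) : dl n Y f ≠ sg n Y := by
  intro h
  obtain ⟨y⟩ := ‹Nonempty Y›
  have := congrArg (fun e : Perm (ZMod n × Y) => (e (0, y)).1) h
  simp only [dl_apply, sg_apply, zero_add] at this
  have h2 : Nontrivial (ZMod n) := ZMod.nontrivial_iff.2 hn
  exact zero_ne_one this

end wreath

section commutators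
variable {X : Type}

/-- both copies -/
def i2 (X : Type) : Perm X →* Perm (X ⊕ X) :=
  (Perm.sumCongrHom X X).comp ((MonoidHom.id _).prod (MonoidHom.id _))

theorem i2_inl (a : Perm X) (x : X) : i2 X a (Sum.inl x) = Sum.inl (a x) := rfl
theorem i2_inr (a : Perm X) (x : X) : i2 X a (Sum.inr x) = Sum.inr (a x) := rfl

theorem i2_injective (X : Type) : Injective (i2 X) := by
  intro a b h
  ext x
  have := congrArg (fun e : Perm (X ⊕ X) => e (Sum.inl x)) h
  simpa [i2_inl] using this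

/-- one copy -/
def i1 (X : Type) : Perm X →* Perm (X ⊕ X) :=
  (Perm.sumCongrHom X X).comp ((MonoidHom.id _).prod 1)

theorem i1_inl (a : Perm X) (x : X) : i1 X a (Sum.inl x) = Sum.inl (a x) := rfl
theorem i1_inr (a : Perm X) (x : X) : i1 X a (Sum.inr x) = Sum.inr x := rfl

/-- twisted swap -/
def tw (r : Perm X) : Perm (X ⊕ X) where
  toFun := Sum.elim (fun x => Sum.inr (r x)) fun x => Sum.inl (r⁻¹ x)
  invFun := Sum.elim (fun x => Sum.inr (r x)) fun x => Sum.inl (r⁻¹ x)
  left_inv := by rintro (x | x) <;> simp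
  right_inv := by rintro (x | x) <;> simp

theorem tw_inl (r : Perm X) (x : X) : tw r (Sum.inl x) = Sum.inr (r x) := rfl
theorem tw_inr (r : Perm X) (x : X) : tw r (Sum.inr x) = Sum.inl (r⁻¹ x) := rfl

theorem tw_inv (r : Perm X) : (tw r)⁻¹ = tw r := rfl

theorem tw_sq (r : Perm X) : tw r ^ 2 ^ 1 = 1 := by
  rw [pow_one, pow_two]
  nth_rewrite 1 [← tw_inv]
  exact inv_mul_cancel _

theorem comm_i1_tw {g r : Perm X} (h : r * g⁻¹ * r⁻¹ = g) : ⁅i1 X g, tw r⁆ = i2 X g := by
  rw [commutatorElement_def, tw_inv, ← map_inv]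
  ext x
  rcases x with x | x
  · simp only [Perm.mul_apply, i1_inl, i1_inr, i2_inl, tw_inl, tw_inr]
    rw [show r⁻¹ (r x) = x from r.symm_apply_apply x]
  · simp only [Perm.mul_apply, i1_inl, i1_inr, i2_inr, tw_inl, tw_inr]
    have := congrArg (fun e : Perm X => e x) h
    simp only [Perm.mul_apply] at this
    rw [this]

/-- a permutation of a finite set is conjugate to its inverse -/
theorem exists_conj_inv [Finite X] (g : Perm X) : ∃ r : Perm X, r * g⁻¹ * r⁻¹ = g := by
  classical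
  have := Fintype.ofFinite X
  have h : IsConj g⁻¹ g := by
    rw [Perm.isConj_iff_cycleType_eq, Perm.cycleType_inv]
  exact isConj_iff.1 h

end commutators

theorem not_inC_of {Γ : Type} {gs : List Γ} {z : Γ} {n : ℕ} (hn : Odd n) {p : Γ × Bool → ℕ}
    (hp0 : ∀ i, (p i : ZMod n) ≠ 0)
    (hp : ∀ i j k l, i ≠ j → (p i : ZMod n) - p j = p k - p l → i = k ∧ j = l)
    {Rs : List (Wd Γ)} {T : Wd Γ} (X : Type) [Finite X] (g : Γ → Perm X)
    (M : Subgroup (Perm X)) (hM : ∀ a ∈ M, ∀ b ∈ M, a * b = b * a) (hz : g z ∈ M)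
    (hMg : ∀ γ, ∀ m ∈ M, g γ * m * (g γ)⁻¹ ∈ M) (h2 : ∀ γ, ∃ k, g γ ^ 2 ^ k = 1)
    (hR : ∀ R ∈ Rs, ev g R = 1) (hT : ev g T ∈ M) (hT' : ev g T ≠ 1) :
    ∃ (G : Type) (_ : Group G) (_ : Finite G), ¬ InC G (Bw gs z n p Rs) (Aw n p T) := by
  classical
  have hn1 : n ≠ 1 := by
    rintro rfl
    exact hp0 (z, true) (Subsingleton.elim _ _)
  have hn0 : NeZero n := ⟨by rintro rfl; simp at hn⟩
  -- `X` is nonempty
  have hX : Nonempty X := by
    by_contra h
    rw [not_nonempty_iff] at h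
    exact hT' (Subsingleton.elim _ _)
  obtain ⟨x0⟩ := id hX
  choose r hr using fun γ => exists_conj_inv (g γ)
  -- the factors
  let hh : Γ × Bool → Perm (X ⊕ X) := fun i => if i.2 then tw (r i.1) else i1 X (g i.1)
  have hh2 : ∀ i, ∃ k, hh i ^ 2 ^ k = 1 := by
    rintro ⟨γ, _ | _⟩
    · obtain ⟨k, hk⟩ := h2 γ
      exact ⟨k, by simp only [hh]; rw [if_neg (by simp), ← map_pow, hk, map_one]⟩
    · exact ⟨1, tw_sq (r γ)⟩
  have hroot : ∀ i, ∃ s, s ^ n = hh i := by
    intro i
    obtain ⟨k, hk⟩ := hh2 i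
    have hcop : n.Coprime (orderOf (hh i)) := by
      refine Nat.Coprime.coprime_dvd_right (orderOf_dvd_of_pow_eq_one hk) ?_
      exact Nat.Coprime.pow_right _ (Nat.coprime_two_right.2 hn)
    obtain ⟨m, hm⟩ := exists_pow_eq_self_of_coprime hcop
    exact ⟨hh i ^ m, by rw [← pow_mul, mul_comm, pow_mul, hm]⟩
  choose rt hrt using hroot
  let hr' : ZMod n → Perm (X ⊕ X) := fun q => if h : ∃ i, q = p i then rt h.choose else 1
  have hpinj : ∀ i j, (p i : ZMod n) = p j → i = j := by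
    intro i j e
    by_contra h
    exact h (hp i j i i h (by rw [e])).2.symm
  have hr'p : ∀ i, hr' (p i) = rt i := by
    intro i
    have h : ∃ j, (p i : ZMod n) = p j := ⟨i, rfl⟩
    have e : hr' (p i) = rt h.choose := dif_pos h
    rw [e, ← hpinj _ _ h.choose_spec]
  have hr'n : ∀ q : ZMod n, (∀ i, q ≠ p i) → hr' q = 1 := by
    intro q hq
    exact dif_neg (by rintro ⟨i, hi⟩; exact hq i hi)
  have hhne : ∀ γ, hh (γ, true) ≠ 1 := by
    intro γ h
    have := congrArg (fun e : Perm (X ⊕ X) => e (Sum.inl x0)) h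
    simp [hh, tw_inl] at this
  have hev : ∀ w, ev (fun γ => i2 X (g γ)) w = i2 X (ev g w) := fun w => (map_ev _ _ _).symm
  have hMg' : ∀ γ, ∀ m ∈ M, (g γ)⁻¹ * m * g γ ∈ M := by
    intro γ
    obtain ⟨k, hk⟩ := h2 γ
    have hpow : ∀ j : ℕ, ∀ m ∈ M, g γ ^ j * m * (g γ ^ j)⁻¹ ∈ M := by
      intro j
      induction j with
      | zero => intro m hm; simpa using hm
      | succ j ih =>
        intro m hm
        have := hMg γ _ (ih m hm)
        rw [pow_succ']
        convert this using 1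
        group
    intro m hm
    have h3 : (g γ)⁻¹ = g γ ^ (2 ^ k - 1) := by
      apply inv_eq_of_mul_eq_one_left
      rw [← pow_succ, Nat.sub_add_cancel Nat.one_le_two_pow, hk]
    have := hpow (2 ^ k - 1) m hm
    rwa [← h3, inv_inv] at this
  let D : WData (Perm (ZMod n × (X ⊕ X))) (Perm (X ⊕ X)) Γ n :=
    { δ := dl n (X ⊕ X)
      σ := sg n (X ⊕ X)
      inj := dl_injective _ _
      hσ := sg_pow _ _
      hconj := sg_conj
      hσδ := dl_ne_sg hn1
      z := z
      p := p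
      hp0 := hp0
      hp := hp
      hr := hr'
      h0 := hr'n 0 fun i h => hp0 i h.symm
      hrn := fun q hq => by rw [hr'n q hq, one_pow]
      gh := fun γ => i2 X (g γ)
      hgh := fun γ => by
        rw [hr'p, hr'p, hrt, hrt]
        exact comm_i1_tw (hr γ)
      hne := by
        intro h
        apply hhne z
        rw [← hrt, ← hr'p, h, one_pow]
      M := M.map (i2 X)
      hM := by
        rintro _ ⟨a, ha, rfl⟩ _ ⟨b, hb, rfl⟩
        rw [← map_mul, ← map_mul, hM a ha b hb]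
      hz := ⟨_, hz, rfl⟩
      hMg := by
        rintro γ _ ⟨m, hm, rfl⟩
        exact ⟨_, hMg γ m hm, by simp⟩
      hMg' := by
        rintro γ _ ⟨m, hm, rfl⟩
        exact ⟨_, hMg' γ m hm, by simp⟩ }
  refine ⟨Perm (ZMod n × (X ⊕ X)), inferInstance, inferInstance, ?_⟩
  refine D.not_inC (gs := gs) (Rs := Rs) (T := T) ?_ ?_
  · intro R hRR
    change ev (fun γ => i2 X (g γ)) R = 1
    rw [hev, hR R hRR, map_one]
  · change ev (fun γ => i2 X (g γ)) T ≠ 1
    rw [hev]
    intro h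
    exact hT' (i2_injective X (by rw [h, map_one]))

end Pool.Agent.Kuz
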